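import Pool.Agent.W5h70.AJ.Abs

set_option autoImplicit false

open Filter Topology Set Metric

namespace Pool.Agent.W5h70.AJ

open Pool.Agent.H721R2 Pool.Agent.H789R2.AN

variable {X : Type*} [MetricSpace X] {E : Type*} [NormedAddCommGroup E] [NormedSpace ℝ E]

/-- Finite partition index function of small mesh -/
theorem exists_index [CompactSpace X] (ε : ℝ) (hε : 0 < ε) :
    ∃ (t : Finset X) (idx : X → X), (∀ x, idx x ∈ t) ∧ ∀ x y, idx x = idx y → dist x y < ε := by
  obtain ⟨t, ht⟩ := isCompact_univ.elim_finite_subcover (fun x : X => ball x (ε / 2))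
    (fun x => isOpen_ball) (fun x _ => mem_iUnion.mpr ⟨x, mem_ball_self (half_pos hε)⟩)
  have h1 : ∀ x : X, ∃ y ∈ t, dist x y < ε / 2 := by
    intro x
    have := ht (mem_univ x)
    simp only [mem_iUnion, mem_ball, exists_prop] at this
    exact this
  choose idx h2 h3 using h1
  refine ⟨t, idx, h2, fun x y hxy => ?_⟩
  have h4 := h3 x
  have h5 := h3 y
  rw [← hxy] at h5
  have := dist_triangle_right x y (idx x)
  linarith

/-- If all periodic orbits in the trapping region `U` have nonnegative Birkhoff sums, the Birkhoff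
sums along each orbit of `U` are bounded below. -/
theorem lower [CompactSpace X] (S : HypSys X E) (φ : X → ℝ) (C α r : ℝ) (hα : 0 < α)
    (hC : 0 ≤ C) (hr : 0 < r) (hφ : ∀ x y, dist x y < r → |φ x - φ y| ≤ C * dist x y ^ α)
    (U : Set X) (hUo : IsOpen U) (hU : closure (S.g '' U) ⊆ U)
    (hper : ∀ (P : ℕ), 0 < P → ∀ p ∈ U, S.g^[P] p = p → 0 ≤ bs S.g φ P p) (w : X) (hw : w ∈ U) :
    ∃ B : ℝ, ∀ n, -B ≤ bs S.g φ n w := by
  obtain ⟨c, hc⟩ := exists_LP S
  obtain ⟨δ, hδ, D, hD, hdist⟩ := distortion hc φ C α r hα hC hr hφ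
  obtain ⟨ε₀, hε₀, hclose⟩ := closing S
  have hK := S.one_le_K
  have hK0 : 0 < S.K := by linarith
  obtain ⟨η, hη, hηU⟩ : ∃ η > 0, ∀ x ∈ closure (S.g '' U), ∀ y, dist y x < η → y ∈ U := by
    obtain ⟨η, hη, h1⟩ := (isClosed_closure (s := S.g '' U)).isCompact.exists_thickening_subset_open
      hUo hU
    exact ⟨η, hη, fun x hx y hy => h1 (mem_thickening_iff.mpr ⟨x, hx, hy⟩)⟩
  set ε := min ε₀ (min (δ / (8 * S.K)) (η / (16 * S.K))) with hε
  have hε0 : 0 < ε := by positivity
  have hε1 : ε ≤ ε₀ := min_le_left _ _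
  have hε2 : 8 * S.K * ε ≤ δ := by
    have : ε ≤ δ / (8 * S.K) := (min_le_right _ _).trans (min_le_left _ _)
    rw [le_div_iff₀ (by positivity)] at this
    linarith
  have hε3 : 16 * S.K * ε ≤ η := by
    have : ε ≤ η / (16 * S.K) := (min_le_right _ _).trans (min_le_right _ _)
    rw [le_div_iff₀ (by positivity)] at this
    linarith
  obtain ⟨t, idx, hidx, hmesh⟩ := exists_index (X := X) ε hε0
  -- the orbit
  set v : ℕ → X := fun j => S.g^[j] w with hv
  have hv1 : ∀ j, S.g (v j) = v (j + 1) := fun j => (Function.iterate_succ_apply' S.g j w).symm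
  have hvU : ∀ j, v j ∈ U := by
    intro j
    induction j with
    | zero => exact hw
    | succ j ih =>
      rw [← hv1]
      exact hU (subset_closure (mem_image_of_mem _ ih))
  -- N
  obtain ⟨N, hN1, hN⟩ : ∃ N, 1 ≤ N ∧ ∀ n ≥ N, ∃ᶠ j in atTop, idx (v j) = idx (v n) := by
    have h1 : ∀ i ∈ t, ∀ᶠ n in atTop, (idx (v n) = i → ∃ᶠ j in atTop, idx (v j) = i) := by
      intro i _
      by_cases h : ∃ᶠ j in atTop, idx (v j) = i
      · exact Eventually.of_forall fun n _ => h
      · rw [not_frequently] at h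
        filter_upwards [h] with n hn h2
        exact absurd h2 hn
    have h2 : ∀ᶠ n in atTop, ∀ i ∈ t, (idx (v n) = i → ∃ᶠ j in atTop, idx (v j) = i) := by
      rw [Filter.eventually_all_finset]
      exact h1
    obtain ⟨N, hN⟩ := eventually_atTop.mp h2
    refine ⟨N + 1, by omega, fun n hn => ?_⟩
    exact hN n (by omega) (idx (v n)) (hidx _) rfl
  -- connecting pieces
  have hcon : ∀ i : X, ∃ s t' : ℕ, ((∃ᶠ j in atTop, idx (v j) = i) →
      s < t' ∧ idx (v s) = i ∧ idx (v t') = idx (v N)) := by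
    intro i
    by_cases h : ∃ᶠ j in atTop, idx (v j) = i
    · obtain ⟨s, -, hs⟩ := frequently_atTop.mp h 0
      obtain ⟨t', ht', ht2⟩ := frequently_atTop.mp (hN N le_rfl) (s + 1)
      exact ⟨s, t', fun _ => ⟨by omega, hs, ht2⟩⟩
    · exact ⟨0, 0, fun h' => absurd h' h⟩
  choose s t' hst using hcon
  set B1 : ℝ := ∑ i ∈ t, |bs S.g φ (t' i - s i) (v (s i))| with hB1
  have hB1' : ∀ i ∈ t, |bs S.g φ (t' i - s i) (v (s i))| ≤ B1 := fun i hi =>
    Finset.single_le_sum (f := fun i => |bs S.g φ (t' i - s i) (v (s i))|)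
      (fun _ _ => abs_nonneg _) hi
  have key : ∀ m, 0 < m → -(2 * D + B1) ≤ bs S.g φ m (v N) := by
    intro m hm
    set i := idx (v (N + m)) with hi
    obtain ⟨h1, h2, h3⟩ := hst i (hN (N + m) (by omega))
    set a := s i with ha
    set b := t' i with hb
    set P := m + (b - a) with hP
    let z : ℕ → X := fun k => if k < m then v (N + k) else v (a + (k - m))
    have hz_lt : ∀ k, k < m → z k = v (N + k) := fun k hk => if_pos hk
    have hz_ge : ∀ k, m ≤ k → z k = v (a + (k - m)) := fun k hk => if_neg (by omega)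
    obtain ⟨p, hp1, hp2⟩ := hclose ε hε0 hε1 P z (by omega) (by
      intro k hk
      rcases lt_trichotomy (k + 1) m with h4 | h4 | h4
      · rw [hz_lt k (by omega), hz_lt (k + 1) h4, hv1]
        have : N + k + 1 = N + (k + 1) := by ring
        rw [this, dist_self]
        exact hε0.le
      · rw [hz_lt k (by omega), hz_ge (k + 1) h4.ge, hv1]
        have h5 : N + k + 1 = N + m := by omega
        have h6 : a + (k + 1 - m) = a := by omega
        rw [h5, h6]
        exact (hmesh _ _ (by rw [← hi, h2])).le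
      · rw [hz_ge k (by omega), hz_ge (k + 1) (by omega), hv1]
        have h5 : a + (k - m) + 1 = a + (k + 1 - m) := by omega
        rw [h5, dist_self]
        exact hε0.le) (by
      rw [hz_ge (P - 1) (by omega), hz_lt 0 hm, hv1]
      have h5 : a + (P - 1 - m) + 1 = b := by omega
      rw [h5]
      exact (hmesh _ _ h3).le)
    have hpU : p ∈ U := by
      have h5 := hp2 0 (by omega)
      rw [hz_lt 0 hm] at h5
      simp only [Function.iterate_zero, id_eq, add_zero] at h5
      refine hηU (v N) ?_ p ?_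
      · obtain ⟨N', rfl⟩ : ∃ N', N = N' + 1 := ⟨N - 1, by omega⟩
        rw [← hv1]
        exact subset_closure (mem_image_of_mem _ (hvU N'))
      · have h6 : 0 < S.K * ε := by positivity
        linarith
    have h5 := hper P (by omega) p hpU hp1
    rw [hP, bs_add] at h5
    have h6 : |bs S.g φ m p - bs S.g φ m (v N)| ≤ D := by
      apply hdist
      intro k hk
      have h7 := hp2 k (by omega)
      rw [hz_lt k hk] at h7
      have h8 : S.g^[k] (v N) = v (N + k) := by
        show S.g^[k] (S.g^[N] w) = S.g^[N + k] w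
        rw [Nat.add_comm N k, Function.iterate_add_apply]
      rw [h8]
      exact h7.trans hε2
    have h7 : |bs S.g φ (b - a) (S.g^[m] p) - bs S.g φ (b - a) (v a)| ≤ D := by
      apply hdist
      intro k hk
      have h7 := hp2 (m + k) (by omega)
      rw [hz_ge (m + k) (by omega)] at h7
      have h8 : S.g^[k] (v a) = v (a + k) := by
        show S.g^[k] (S.g^[a] w) = S.g^[a + k] w
        rw [Nat.add_comm a k, Function.iterate_add_apply]
      have h9 : m + k - m = k := by omega
      rw [h9] at h7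
      rw [h8, ← Function.iterate_add_apply, Nat.add_comm k m]
      exact h7.trans hε2
    have h8 := hB1' i (hidx _)
    rw [abs_le] at h6 h7 h8
    linarith
  set B2 : ℝ := ∑ n ∈ Finset.range (N + 1), |bs S.g φ n w| with hB2
  have hB2' : ∀ n ≤ N, |bs S.g φ n w| ≤ B2 := fun n hn =>
    Finset.single_le_sum (f := fun n => |bs S.g φ n w|)
      (fun _ _ => abs_nonneg _) (Finset.mem_range.mpr (by omega))
  have hB10 : 0 ≤ B1 := Finset.sum_nonneg fun _ _ => abs_nonneg _
  refine ⟨B2 + (2 * D + B1), fun n => ?_⟩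
  rcases le_or_gt n N with hn | hn
  · have := hB2' n hn
    rw [abs_le] at this
    linarith
  · obtain ⟨m, rfl⟩ := Nat.exists_eq_add_of_lt hn
    have h1 := key (m + 1) (by omega)
    have h2 := hB2' N le_rfl
    rw [abs_le] at h2
    have h3 : N + m + 1 = N + (m + 1) := by ring
    rw [h3, bs_add]
    have h4 : v N = S.g^[N] w := rfl
    rw [h4] at h1
    linarith

end Pool.Agent.W5h70.AJ
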