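import Pool.Agent.W5h70.AJ.Core

set_option autoImplicit false
set_option linter.unusedSectionVars false

open scoped Manifold ContDiff Topology ENNReal
open Set Filter Module MeasureTheory Metric

namespace Pool.Agent.W5h70.AJ

open Pool.Agent.H721R2 Pool.Agent.H789R2.AN

section symm

variable {E : Type*} [NormedAddCommGroup E] [NormedSpace ℝ E]
  {M : Type*} [TopologicalSpace M] [ChartedSpace E M] [IsManifold 𝓘(ℝ, E) 1 M]

theorem invField_symm (f : Diffeomorph 𝓘(ℝ, E) 𝓘(ℝ, E) M M 1)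
    (V : ∀ x : M, Submodule ℝ (TangentSpace 𝓘(ℝ, E) x)) (h : InvariantField f V) :
    InvariantField f.symm V := by
  intro x
  have h1 : ∀ y : M, (V y).map (mfderiv 𝓘(ℝ, E) 𝓘(ℝ, E) f y).toLinearMap = V (f y) := h
  have key : ∀ y : M, (V (f y)).map (mfderiv 𝓘(ℝ, E) 𝓘(ℝ, E) f.symm (f y)).toLinearMap =
      (V y : Submodule ℝ E) := by
    intro y
    have hc : (mfderiv 𝓘(ℝ, E) 𝓘(ℝ, E) f.symm (f y)).comp (mfderiv 𝓘(ℝ, E) 𝓘(ℝ, E) f y) =
        ContinuousLinearMap.id ℝ (TangentSpace 𝓘(ℝ, E) y) := by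
      have e1 := mfderiv_comp y (I := 𝓘(ℝ, E)) (I' := 𝓘(ℝ, E)) (I'' := 𝓘(ℝ, E))
        (g := f.symm) (f := f)
        ((f.symm.contMDiff).mdifferentiableAt (by norm_num))
        ((f.contMDiff).mdifferentiableAt (by norm_num))
      have e2 : (f.symm : M → M) ∘ (f : M → M) = id := by
        funext z
        exact f.symm_apply_apply z
      rw [e2, mfderiv_id] at e1
      exact e1.symm
    have e3 : ∀ v : E, (mfderiv 𝓘(ℝ, E) 𝓘(ℝ, E) f.symm (f y))
        ((mfderiv 𝓘(ℝ, E) 𝓘(ℝ, E) f y) v) = v := fun v =>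
      congrArg (fun L : E →L[ℝ] E => L v) hc
    rw [← h1 y]
    ext v
    constructor
    · rintro ⟨w, ⟨z, hz, rfl⟩, rfl⟩
      have e4 := e3 z
      change (mfderiv 𝓘(ℝ, E) 𝓘(ℝ, E) f.symm (f y))
        ((mfderiv 𝓘(ℝ, E) 𝓘(ℝ, E) f y) z) ∈ _
      rw [e4]
      exact hz
    · intro hv
      exact ⟨(mfderiv 𝓘(ℝ, E) 𝓘(ℝ, E) f y) v, ⟨v, hv, rfl⟩, e3 v⟩
  have h2 := key (f.symm x)
  rw [f.apply_symm_apply] at h2
  exact h2

theorem anosov_symm (f : Diffeomorph 𝓘(ℝ, E) 𝓘(ℝ, E) M M 1)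
    (Es Eu : ∀ x : M, Submodule ℝ (TangentSpace 𝓘(ℝ, E) x)) (h : IsAnosov f Es Eu) :
    IsAnosov f.symm Eu Es where
  isCompl := fun x => (h.isCompl x).symm
  map_s := invField_symm f Eu h.map_u
  map_u := invField_symm f Es h.map_s
  rates := by
    obtain ⟨N, C, l, hN, hC, hl0, hl1, h1, h2⟩ := h.rates
    exact ⟨N, C, l, hN, hC, hl0, hl1, h2, h1⟩

theorem transitive_symm (f : M ≃ₜ M) (h : TopTransitive f.symm) : TopTransitive f := by
  intro U V hU hUn hV hVn
  obtain ⟨n, y, ⟨x, hx, hxy⟩, hy⟩ := h V U hV hVn hU hUn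
  refine ⟨n, x, ⟨y, hy, ?_⟩, hx⟩
  rw [← hxy]
  exact (Function.LeftInverse.iterate f.apply_symm_apply n) x

end symm

section metric

variable {E : Type*} [NormedAddCommGroup E] [NormedSpace ℝ E] [FiniteDimensional ℝ E]
  {M : Type*} [MetricSpace M] [CompactSpace M] [ConnectedSpace M] [ChartedSpace E M]
  [IsManifold 𝓘(ℝ, E) ∞ M]
  {F : Type*} [NormedAddCommGroup F] [InnerProductSpace ℝ F]

theorem absDet_eq_exp (b : Basis (Fin (finrank ℝ E)) ℝ E) (e : M → F)
    (hinj : ∀ x, Function.Injective (dm E e x)) (f : Diffeomorph 𝓘(ℝ, E) 𝓘(ℝ, E) M M 1) (n : ℕ)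
    (p : M) (hp : f^[n] p = p) :
    absDet E f n p = Real.exp (bs f (fun q => Real.log (Jc b e f q)) n p) := by
  rw [Jc_iter b e hinj f f.symm f.contMDiff f.symm.contMDiff f.symm_apply_apply n p,
    Jc_fixed b e hinj _ p hp]
  rfl

theorem jac_dir {e : M → F} (hiso : ∀ x y, dist x y = ‖e x - e y‖)
    (he : ContMDiff 𝓘(ℝ, E) 𝓘(ℝ, F) ∞ e) (hinj : ∀ x, Function.Injective (dm E e x))
    (b : Basis (Fin (finrank ℝ E)) ℝ E)
    (f : Diffeomorph 𝓘(ℝ, E) 𝓘(ℝ, E) M M 1)
    (Es Eu : ∀ x : M, Submodule ℝ (TangentSpace 𝓘(ℝ, E) x)) (hA : IsAnosov f Es Eu)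
    (hφ : ∀ x, LH (fun p => Real.log (Jc b e f p)) x) :
    (∀ U : Set M, IsOpen U → U.Nonempty → closure (f '' U) ⊆ U →
      (∀ P : ℕ, 0 < P → ∀ p ∈ U, f^[P] p = p → 1 ≤ absDet E f P p) → U = univ) ∧
    ((∀ P : ℕ, 0 < P → ∀ p, f^[P] p = p → 1 ≤ absDet E f P p) → TopTransitive f) := by
  let _ : MeasurableSpace E := borel E
  have : BorelSpace E := ⟨rfl⟩
  let _ : MeasurableSpace M := borel M
  have : BorelSpace M := ⟨rfl⟩
  obtain ⟨ν, hνf, hpos, κ, hκ, hQ⟩ := exists_measure b e he hinj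
  have : IsManifold 𝓘(ℝ, E) 1 M := isManifold_one
  have hQ' : ∀ (n : ℕ) (B : Set M), MeasurableSet B →
      κ * ∫⁻ x in B, ENNReal.ofReal (Real.exp (bs f (fun p => Real.log (Jc b e f p)) n x)) ∂ν ≤
        ν (f^[n] '' B) := by
    intro n B hB
    simp only [Jc_iter b e hinj f f.symm f.contMDiff f.symm.contMDiff f.symm_apply_apply]
    exact hQ (f^[n]) (iter_smooth f f.contMDiff n) (f.injective.iterate n) B hB
  have hdet : ∀ (P : ℕ) (p : M), f^[P] p = p → 1 ≤ absDet E f P p →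
      0 ≤ bs f (fun p => Real.log (Jc b e f p)) P p := by
    intro P p hp h1
    rw [absDet_eq_exp b e hinj f P p hp, Real.one_le_exp_iff] at h1
    exact h1
  refine ⟨fun U hUo hUn hU hper => ?_, fun hper => ?_⟩
  · exact core_trap hiso he hinj f Es Eu hA _ hφ ν hpos κ hκ hQ' U hUo hUn hU
      (fun P hP p hp hpp => hdet P p hpp (hper P hP p hp hpp))
  · exact core_trans hiso he hinj f Es Eu hA _ hφ ν hpos κ hκ hQ'
      (fun P hP p hpp => hdet P p hpp (hper P hP p hpp))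

theorem symm_lh {e : M → F} (hiso : ∀ x y, dist x y = ‖e x - e y‖)
    (he : ContMDiff 𝓘(ℝ, E) 𝓘(ℝ, F) ∞ e) (hinj : ∀ x, Function.Injective (dm E e x))
    (b : Basis (Fin (finrank ℝ E)) ℝ E) (f : Diffeomorph 𝓘(ℝ, E) 𝓘(ℝ, E) M M 1)
    (hφ : ∀ x, LH (fun p => Real.log (Jc b e f p)) x) (x : M) :
    LH (fun p => Real.log (Jc b e f.symm p)) x := by
  have he1 : ContMDiff 𝓘(ℝ, E) 𝓘(ℝ, F) 1 e := he.of_le (by simp)
  have h1 : (fun p => Real.log (Jc b e f.symm p)) =
      fun p => -((fun p => Real.log (Jc b e f p)) ∘ f.symm) p := by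
    funext p
    have h2 := Jc_comp b e hinj f.symm f f.symm.contMDiff f.contMDiff p
    have h3 : (f : M → M) ∘ f.symm = id := funext f.apply_symm_apply
    rw [h3, Jc_fixed b e hinj id p rfl, dg_id_det, abs_one] at h2
    have h4 := Jc_pos b e hinj f (f.symm p)
      (dg_det_ne f f.symm f.contMDiff f.symm.contMDiff f.symm_apply_apply _)
    show Real.log (Jc b e f.symm p) = -Real.log (Jc b e f (f.symm p))
    rw [← Real.log_inv]
    congr 1
    field_simp
    linarith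
  rw [h1]
  exact ((hφ _).comp (self_lh hiso he1 hinj f.symm f.symm.contMDiff x)).neg

theorem absDet_symm (b : Basis (Fin (finrank ℝ E)) ℝ E) (e : M → F)
    (hinj : ∀ x, Function.Injective (dm E e x)) (f : Diffeomorph 𝓘(ℝ, E) 𝓘(ℝ, E) M M 1) (n : ℕ)
    (p : M) (hp : f^[n] p = p) : f.symm^[n] p = p ∧
      absDet E f.symm n p * absDet E f n p = 1 := by
  have hps : f.symm^[n] p = p := by
    have := (Function.LeftInverse.iterate f.symm_apply_apply n) p
    rwa [hp] at this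
  refine ⟨hps, ?_⟩
  have : IsManifold 𝓘(ℝ, E) 1 M := isManifold_one
  have h1 := dg_det_comp (E := E) (f^[n]) (f.symm^[n]) (iter_smooth f f.contMDiff n)
    (iter_smooth f.symm f.symm.contMDiff n) p
  have h2 : (f.symm^[n]) ∘ (f^[n]) = id :=
    funext (Function.LeftInverse.iterate f.symm_apply_apply n)
  rw [h2, dg_id_det, hp] at h1
  have h3 := congrArg abs h1
  rw [abs_one, abs_mul] at h3
  exact h3.symm

end metric

section meas

variable {M : Type*} [TopologicalSpace M] [MeasurableSpace M] [BorelSpace M]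

theorem change (f : M ≃ₜ M) (μ : Measure M) (φ : M → ℝ) (hφ : Continuous φ)
    (h : ∀ B, MeasurableSet B → μ (f '' B) = ∫⁻ x in B, ENNReal.ofReal (Real.exp (φ x)) ∂μ)
    (ψ : M → ℝ≥0∞) (hψ : Measurable ψ) (B : Set M) (hB : MeasurableSet B) :
    ∫⁻ x in f '' B, ψ x ∂μ = ∫⁻ x in B, ENNReal.ofReal (Real.exp (φ x)) * ψ (f x) ∂μ := by
  have hw : Measurable fun x => ENNReal.ofReal (Real.exp (φ x)) :=
    ENNReal.measurable_ofReal.comp (Real.continuous_exp.comp hφ).measurable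
  have hfm : Measurable f := f.continuous.measurable
  set μ' := μ.withDensity (fun x => ENNReal.ofReal (Real.exp (φ x))) with hμ'
  have h1 : μ = Measure.map f μ' := by
    ext C hC
    rw [Measure.map_apply hfm hC, hμ', withDensity_apply _ (hfm hC), ← h _ (hfm hC),
      image_preimage_eq _ f.surjective]
  have hfB : MeasurableSet (f '' B) := by
    rw [f.image_eq_preimage_symm]
    exact f.symm.continuous.measurable hB
  calc ∫⁻ x in f '' B, ψ x ∂μ = ∫⁻ x in f '' B, ψ x ∂(Measure.map f μ') := by rw [← h1]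
    _ = ∫⁻ x in f ⁻¹' (f '' B), ψ (f x) ∂μ' := setLIntegral_map hfB hψ hfm
    _ = ∫⁻ x in B, ψ (f x) ∂μ' := by rw [preimage_image_eq _ f.injective]
    _ = _ := by
      rw [hμ']
      exact setLIntegral_withDensity_eq_setLIntegral_mul μ hw (hψ.comp hfm) hB

theorem meas_iter (f : M ≃ₜ M) (μ : Measure M) (φ : M → ℝ) (hφ : Continuous φ)
    (h : ∀ B, MeasurableSet B → μ (f '' B) = ∫⁻ x in B, ENNReal.ofReal (Real.exp (φ x)) ∂μ)
    (n : ℕ) : ∀ B, MeasurableSet B →
      μ (f^[n] '' B) = ∫⁻ x in B, ENNReal.ofReal (Real.exp (bs f φ n x)) ∂μ := by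
  induction n with
  | zero =>
    intro B hB
    simp [bs]
  | succ n ih =>
    intro B hB
    have hfB : MeasurableSet (f '' B) := by
      rw [f.image_eq_preimage_symm]
      exact f.symm.continuous.measurable hB
    have hm : Measurable fun x => ENNReal.ofReal (Real.exp (bs f φ n x)) := by
      refine ENNReal.measurable_ofReal.comp (Real.continuous_exp.comp ?_).measurable
      unfold bs
      exact continuous_finsetSum _ fun k _ => hφ.comp (f.continuous.iterate k)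
    rw [Function.iterate_succ, image_comp, ih _ hfB, change f μ φ hφ h _ hm B hB]
    refine setLIntegral_congr_fun hB fun x _ => ?_
    have h1 : bs f φ (n + 1) x = φ x + bs f φ n (f x) := by
      rw [Nat.add_comm, bs_add]
      simp [bs]
    show ENNReal.ofReal (Real.exp (φ x)) * ENNReal.ofReal (Real.exp (bs f φ n (f x))) =
      ENNReal.ofReal (Real.exp (bs f φ (n + 1) x))
    rw [h1, Real.exp_add, ENNReal.ofReal_mul (Real.exp_pos _).le]

theorem meas_symm (f : M ≃ₜ M) (μ : Measure M) (φ : M → ℝ) (hφ : Continuous φ)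
    (h : ∀ B, MeasurableSet B → μ (f '' B) = ∫⁻ x in B, ENNReal.ofReal (Real.exp (φ x)) ∂μ)
    (B : Set M) (hB : MeasurableSet B) :
    μ (f.symm '' B) = ∫⁻ x in B, ENNReal.ofReal (Real.exp (-φ (f.symm x))) ∂μ := by
  have hfB : MeasurableSet (f.symm '' B) := by
    rw [f.symm.image_eq_preimage_symm]
    exact f.continuous.measurable hB
  have h1 : f '' (f.symm '' B) = B := by
    rw [← image_comp]
    simp
  have hm : Measurable fun x => ENNReal.ofReal (Real.exp (-φ (f.symm x))) :=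
    ENNReal.measurable_ofReal.comp
      (Real.continuous_exp.comp (hφ.comp f.symm.continuous).neg).measurable
  have h2 := change f μ φ hφ h _ hm _ hfB
  rw [h1] at h2
  rw [h2]
  have h3 : ∀ x, ENNReal.ofReal (Real.exp (φ x)) *
      ENNReal.ofReal (Real.exp (-φ (f.symm (f x)))) = 1 := by
    intro x
    rw [← ENNReal.ofReal_mul (Real.exp_pos _).le, ← Real.exp_add, f.symm_apply_apply,
      add_neg_cancel, Real.exp_zero, ENNReal.ofReal_one]
  simp only [h3]
  rw [setLIntegral_one]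

end meas

section final

variable {E : Type*} [NormedAddCommGroup E] [NormedSpace ℝ E] [FiniteDimensional ℝ E]
  {M : Type*} [TopologicalSpace M] [T2Space M] [CompactSpace M] [ConnectedSpace M]
  [ChartedSpace E M] [IsManifold 𝓘(ℝ, E) ∞ M]

/-- Jacobian version -/
theorem final_jac (f : Diffeomorph 𝓘(ℝ, E) 𝓘(ℝ, E) M M 1)
    (hf : ContMDiff 𝓘(ℝ, E) 𝓘(ℝ, E) 2 f ∨ HolderJacobian E f)
    (Es Eu : ∀ x : M, Submodule ℝ (TangentSpace 𝓘(ℝ, E) x)) (hA : IsAnosov f Es Eu) :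
    (¬ TopTransitive f → (∃ n p, 0 < n ∧ f^[n] p = p ∧ absDet E f n p < 1) ∧
      ∃ n p, 0 < n ∧ f^[n] p = p ∧ 1 < absDet E f n p) ∧
    (∀ U : Set M, IsOpen U → U.Nonempty → U ≠ univ →
      (closure (f '' U) ⊆ U → ∃ n, ∃ p ∈ U, 0 < n ∧ f^[n] p = p ∧ absDet E f n p < 1) ∧
      (closure (f ⁻¹' U) ⊆ U → ∃ n, ∃ p ∈ U, 0 < n ∧ f^[n] p = p ∧ 1 < absDet E f n p)) := by
  obtain ⟨m, e, he, hemb, hinj⟩ := exists_embedding_euclidean_of_compact (I := 𝓘(ℝ, E)) (M := M)
  let _ : MetricSpace M := hemb.isEmbedding.comapMetricSpace e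
  have hiso : ∀ x y : M, dist x y = ‖e x - e y‖ := fun x y => dist_eq_norm (e x) (e y)
  have hJ : HolderJacobian E f := hf.elim (fun h => holderJacobian_of_c2 _ h) id
  set b := Module.finBasis ℝ E with hb
  have hφ : ∀ x, LH (fun p => Real.log (Jc b e f p)) x := logJc_lh b hiso he hinj f f.symm
    f.contMDiff f.symm.contMDiff f.symm_apply_apply hJ
  obtain ⟨a1, a2⟩ := jac_dir hiso he hinj b f Es Eu hA hφ
  obtain ⟨b1, b2⟩ := jac_dir hiso he hinj b f.symm Eu Es (anosov_symm f Es Eu hA)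
    (symm_lh hiso he hinj b f hφ)
  have hdet : ∀ (n : ℕ) (p : M), f.symm^[n] p = p → f^[n] p = p ∧
      absDet E f.symm n p * absDet E f n p = 1 := by
    intro n p hp
    obtain ⟨h1, h2⟩ := absDet_symm b e hinj f.symm n p hp
    refine ⟨h1, ?_⟩
    rw [mul_comm]
    exact h2
  have hle : ∀ (n : ℕ) (p : M), f.symm^[n] p = p → absDet E f n p ≤ 1 →
      1 ≤ absDet E f.symm n p := by
    intro n p hp h1
    obtain ⟨h2, h3⟩ := hdet n p hp
    have h4 : 0 ≤ absDet E f.symm n p := abs_nonneg _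
    nlinarith
  refine ⟨fun hT => ⟨?_, ?_⟩, fun U hUo hUn hU => ⟨fun hUf => ?_, fun hUf => ?_⟩⟩
  · by_contra hcon
    push Not at hcon
    exact hT (a2 fun P hP p hp => hcon P p hP hp)
  · by_contra hcon
    push Not at hcon
    refine hT (transitive_symm f.toHomeomorph (b2 fun P hP p hp => ?_))
    exact hle P p hp (hcon P p hP (hdet P p hp).1)
  · by_contra hcon
    push Not at hcon
    exact hU (a1 U hUo hUn hUf fun P hP p hpU hp => hcon P p hpU hP hp)
  · by_contra hcon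
    push Not at hcon
    refine hU (b1 U hUo hUn ?_ fun P hP p hpU hp => ?_)
    · have h1 : (f.symm '' U) = f ⁻¹' U := f.toHomeomorph.symm.image_eq_preimage_symm U
      rw [h1]
      exact hUf
    · exact hle P p hp (hcon P p hpU hP (hdet P p hp).1)

theorem absDet_pos (f : Diffeomorph 𝓘(ℝ, E) 𝓘(ℝ, E) M M 1) (n : ℕ) (p : M) :
    0 < absDet E f n p := by
  obtain ⟨m, e, he, hemb, hinj⟩ := exists_embedding_euclidean_of_compact (I := 𝓘(ℝ, E)) (M := M)
  let _ : MetricSpace M := hemb.isEmbedding.comapMetricSpace e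
  have : IsManifold 𝓘(ℝ, E) 1 M := isManifold_one
  exact abs_pos.mpr (dg_det_ne (E := E) (f^[n]) (f.symm^[n]) (iter_smooth f f.contMDiff n)
    (iter_smooth f.symm f.symm.contMDiff n)
    (Function.LeftInverse.iterate f.symm_apply_apply n) p)

/-- Jacobian version, logarithmic form -/
theorem final_jac_log (f : Diffeomorph 𝓘(ℝ, E) 𝓘(ℝ, E) M M 1)
    (hf : ContMDiff 𝓘(ℝ, E) 𝓘(ℝ, E) 2 f ∨ HolderJacobian E f)
    (Es Eu : ∀ x : M, Submodule ℝ (TangentSpace 𝓘(ℝ, E) x)) (hA : IsAnosov f Es Eu) :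
    (¬ TopTransitive f → (∃ n p, 0 < n ∧ f^[n] p = p ∧ Real.log (absDet E f n p) < 0) ∧
      ∃ n p, 0 < n ∧ f^[n] p = p ∧ 0 < Real.log (absDet E f n p)) ∧
    (∀ U : Set M, IsOpen U → U.Nonempty → U ≠ univ →
      (closure (f '' U) ⊆ U →
        ∃ n, ∃ p ∈ U, 0 < n ∧ f^[n] p = p ∧ Real.log (absDet E f n p) < 0) ∧
      (closure (f ⁻¹' U) ⊆ U →
        ∃ n, ∃ p ∈ U, 0 < n ∧ f^[n] p = p ∧ 0 < Real.log (absDet E f n p))) := by
  have h := final_jac f hf Es Eu hA
  have h1 : ∀ n p, Real.log (absDet E f n p) < 0 ↔ absDet E f n p < 1 := fun n p =>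
    Real.log_neg_iff (absDet_pos f n p)
  have h2 : ∀ n p, 0 < Real.log (absDet E f n p) ↔ 1 < absDet E f n p := fun n p =>
    Real.log_pos_iff (absDet_pos f n p).le
  simp only [h1, h2]
  exact h

/-- measure version -/
theorem final_meas (f : Diffeomorph 𝓘(ℝ, E) 𝓘(ℝ, E) M M 1)
    (Es Eu : ∀ x : M, Submodule ℝ (TangentSpace 𝓘(ℝ, E) x)) (hA : IsAnosov f Es Eu)
    [MeasurableSpace M] [BorelSpace M] (μ : Measure M) [IsFiniteMeasure μ]
    (hpos : ∀ U : Set M, IsOpen U → U.Nonempty → μ U ≠ 0) (φ : M → ℝ) (hφ : HolderInCharts E φ)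
    (hμ : ∀ B, MeasurableSet B → μ (f '' B) = ∫⁻ x in B, ENNReal.ofReal (Real.exp (φ x)) ∂μ) :
    (¬ TopTransitive f →
      (∃ n p, 0 < n ∧ f^[n] p = p ∧ ∑ k ∈ Finset.range n, φ (f^[k] p) < 0) ∧
      ∃ n p, 0 < n ∧ f^[n] p = p ∧ 0 < ∑ k ∈ Finset.range n, φ (f^[k] p)) ∧
    (∀ U : Set M, IsOpen U → U.Nonempty → U ≠ univ →
      (closure (f '' U) ⊆ U → ∃ n, ∃ p ∈ U, 0 < n ∧ f^[n] p = p ∧
        ∑ k ∈ Finset.range n, φ (f^[k] p) < 0) ∧
      (closure (f ⁻¹' U) ⊆ U → ∃ n, ∃ p ∈ U, 0 < n ∧ f^[n] p = p ∧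
        0 < ∑ k ∈ Finset.range n, φ (f^[k] p))) := by
  obtain ⟨m, e, he, hemb, hinj⟩ := exists_embedding_euclidean_of_compact (I := 𝓘(ℝ, E)) (M := M)
  let _ : MetricSpace M := hemb.isEmbedding.comapMetricSpace e
  have hiso : ∀ x y : M, dist x y = ‖e x - e y‖ := fun x y => dist_eq_norm (e x) (e y)
  have he1 : ContMDiff 𝓘(ℝ, E) (𝓡 m) 1 e := he.of_le (by simp)
  have hLH : ∀ x, LH φ x := lh_of_holderInCharts hiso he1 hinj φ hφ
  have hc : Continuous φ := continuous_iff_continuousAt.mpr fun x => (hLH x).continuousAt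
  have hLH' : ∀ x, LH (fun p => -φ (f.symm p)) x := fun x =>
    ((hLH _).comp (self_lh hiso he1 hinj f.symm f.symm.contMDiff x)).neg
  have hc' : Continuous fun p => -φ (f.symm p) :=
    continuous_iff_continuousAt.mpr fun x => (hLH' x).continuousAt
  have hQ : ∀ (n : ℕ) (B : Set M), MeasurableSet B →
      1 * ∫⁻ x in B, ENNReal.ofReal (Real.exp (bs f φ n x)) ∂μ ≤ μ (f^[n] '' B) := by
    intro n B hB
    rw [one_mul]
    exact (meas_iter f.toHomeomorph μ φ hc hμ n B hB).ge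
  have hQ' : ∀ (n : ℕ) (B : Set M), MeasurableSet B →
      1 * ∫⁻ x in B, ENNReal.ofReal (Real.exp (bs f.symm (fun p => -φ (f.symm p)) n x)) ∂μ ≤
        μ (f.symm^[n] '' B) := by
    intro n B hB
    rw [one_mul]
    exact (meas_iter f.toHomeomorph.symm μ _ hc'
        (meas_symm f.toHomeomorph μ φ hc hμ) n B hB).ge
  have hper : ∀ (P : ℕ) (p : M), f.symm^[P] p = p → f^[P] p = p ∧
      bs f.symm (fun p => -φ (f.symm p)) P p = -∑ k ∈ Finset.range P, φ (f^[k] p) := by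
    intro P p hp
    have h1 : f^[P] p = p := by
      have := (Function.LeftInverse.iterate f.apply_symm_apply P) p
      rwa [hp] at this
    refine ⟨h1, ?_⟩
    unfold bs
    rw [← Finset.sum_neg_distrib, ← Finset.sum_range_reflect]
    refine Finset.sum_congr rfl fun k hk => ?_
    have hk' := Finset.mem_range.mp hk
    have h4 : P = (P - 1 - k).succ + k := by omega
    have h5 : f.symm^[(P - 1 - k).succ] (f^[P] p) = f^[k] p := by
      conv_lhs => rw [h4, Function.iterate_add_apply]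
      have h6 : (P - 1 - k).succ + k - 1 - k = P - 1 - k := by omega
      rw [h6]
      exact (Function.LeftInverse.iterate f.symm_apply_apply _) _
    rw [h1, Function.iterate_succ_apply'] at h5
    show -φ (f.symm (f.symm^[P - 1 - k] p)) = _
    rw [h5]
  refine ⟨fun hT => ⟨?_, ?_⟩, fun U hUo hUn hU => ⟨fun hUf => ?_, fun hUf => ?_⟩⟩
  · by_contra hcon
    push Not at hcon
    exact hT (core_trans hiso he hinj f Es Eu hA φ hLH μ hpos 1 one_ne_zero hQ
      fun P hP p hp => hcon P p hP hp)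
  · by_contra hcon
    push Not at hcon
    refine hT (transitive_symm f.toHomeomorph (core_trans hiso he hinj f.symm Eu Es
      (anosov_symm f Es Eu hA) (fun p => -φ (f.symm p)) hLH' μ hpos 1 one_ne_zero hQ' ?_))
    intro P hP p hp
    obtain ⟨h1, h3⟩ := hper P p hp
    have h2 := hcon P p hP h1
    rw [h3]
    linarith
  · by_contra hcon
    push Not at hcon
    exact hU (core_trap hiso he hinj f Es Eu hA φ hLH μ hpos 1 one_ne_zero hQ U hUo hUn hUf
      fun P hP p hpU hp => hcon P p hpU hP hp)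
  · by_contra hcon
    push Not at hcon
    refine hU (core_trap hiso he hinj f.symm Eu Es
      (anosov_symm f Es Eu hA) (fun p => -φ (f.symm p)) hLH' μ hpos 1 one_ne_zero hQ' U hUo hUn
      ?_ ?_)
    · have h1 : (f.symm '' U) = f ⁻¹' U := f.toHomeomorph.symm.image_eq_preimage_symm U
      rw [h1]
      exact hUf
    · intro P hP p hpU hp
      obtain ⟨h1, h3⟩ := hper P p hp
      have h2 := hcon P p hpU hP h1
      rw [h3]
      linarith

end final

end Pool.Agent.W5h70.AJ
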