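import Pool.Agent.H789R2.AN.Hyp

set_option autoImplicit false

open Filter Topology Set Metric

namespace Pool.Agent.W5h70.AJ

open Pool.Agent.H721R2 Pool.Agent.H789R2.AN

variable {X : Type*} [MetricSpace X]

/-- Orbit segments that stay close are exponentially close in the middle. -/
theorem seg {g : X ≃ₜ X} {c : ℝ} (h : LP g c) : ∃ δ > 0, ∀ (x y : X) (n : ℕ),
    (∀ k < n, dist (g^[k] x) (g^[k] y) ≤ δ) → ∀ k < n,
      dist (g^[k] x) (g^[k] y) ≤ c * (1 / 2) ^ k + c * (1 / 2) ^ (n - 1 - k) := by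
  have hc := h.c_pos
  obtain ⟨δ', hδ', hlp⟩ := h.lp (c / 2) (half_pos hc)
  refine ⟨min (δ' / 2) (c / 2), lt_min (half_pos hδ') (half_pos hc), fun x y n hn k hk => ?_⟩
  have h0 : dist x y < δ' := by
    have h1 := hn 0 (by omega)
    have h2 := min_le_left (δ' / 2) (c / 2)
    simp only [Function.iterate_zero, id_eq] at h1
    linarith
  obtain ⟨z, hz1, hz2⟩ := hlp x y h0
  have h1 : dist (g^[k] x) (g^[k] z) ≤ c * (1 / 2) ^ k :=
    h.cS x z (hz1.mono (by linarith)) k
  obtain ⟨m, rfl⟩ : ∃ m, n = m + 1 := ⟨n - 1, by omega⟩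
  have hsr : SR g.symm c (g^[m] y) (g^[m] z) := by
    intro j
    rcases le_or_gt j m with hj | hj
    · obtain ⟨i, rfl⟩ := Nat.exists_eq_add_of_le hj
      rw [Function.iterate_add_apply, Function.iterate_add_apply, iterL, iterL]
      have h2 := hn i (by omega)
      have h3 := hz1 i
      have h4 := dist_triangle (g^[i] y) (g^[i] x) (g^[i] z)
      rw [dist_comm (g^[i] y) (g^[i] x)] at h4
      have h5 := min_le_right (δ' / 2) (c / 2)
      linarith
    · obtain ⟨i, rfl⟩ := Nat.exists_eq_add_of_le hj.le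
      rw [Nat.add_comm m i, Function.iterate_add_apply, Function.iterate_add_apply, iterL, iterL]
      have := hz2 i
      linarith
  have h2 := h.cU _ _ hsr (m - k)
  have h3 : g.symm^[m - k] (g^[m] y) = g^[k] y := by
    obtain ⟨i, hi⟩ := Nat.exists_eq_add_of_le (show k ≤ m by omega)
    have : m = (m - k) + k := by omega
    rw [this, Function.iterate_add_apply]
    simp only [Nat.add_sub_cancel]
    rw [iterL]
  have h4 : g.symm^[m - k] (g^[m] z) = g^[k] z := by
    have : m = (m - k) + k := by omega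
    rw [this, Function.iterate_add_apply]
    simp only [Nat.add_sub_cancel]
    rw [iterL]
  rw [h3, h4] at h2
  have h5 := dist_triangle (g^[k] x) (g^[k] z) (g^[k] y)
  rw [dist_comm (g^[k] z) (g^[k] y)] at h5
  have h6 : m + 1 - 1 - k = m - k := by omega
  rw [h6]
  linarith

theorem expansive {g : X ≃ₜ X} {c : ℝ} (h : LP g c) (y y' : ℤ → X)
    (hy : ∀ n, y (n + 1) = g (y n)) (hy' : ∀ n, y' (n + 1) = g (y' n))
    (hd : ∀ n, dist (y n) (y' n) ≤ c) : y 0 = y' 0 := by
  have orb : ∀ (u : ℤ → X), (∀ n, u (n + 1) = g (u n)) → ∀ (m : ℤ) (k : ℕ),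
      g^[k] (u m) = u (m + k) := by
    intro u hu m k
    induction k with
    | zero => simp
    | succ k ih =>
      rw [Function.iterate_succ_apply', ih, ← hu]
      congr 1
      push_cast
      ring
  have h1 : ∀ m : ℕ, dist (y 0) (y' 0) ≤ c * (1 / 2) ^ m := by
    intro m
    have h2 : SR g c (y (-m)) (y' (-m)) := by
      intro k
      rw [orb y hy, orb y' hy']
      exact hd _
    have h3 := h.cS _ _ h2 m
    rw [orb y hy, orb y' hy'] at h3
    simpa using h3
  have hlim : Tendsto (fun n : ℕ => c * (1 / 2 : ℝ) ^ n) atTop (𝓝 0) := by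
    have := (tendsto_pow_atTop_nhds_zero_of_lt_one (by norm_num : (0:ℝ) ≤ 1 / 2)
      (by norm_num)).const_mul c
    simpa using this
  have h2 : dist (y 0) (y' 0) ≤ 0 := ge_of_tendsto' hlim h1
  exact dist_le_zero.mp h2

variable {E : Type*} [NormedAddCommGroup E] [NormedSpace ℝ E]

/-- Closing lemma for closed chains. -/
theorem closing [CompactSpace X] (S : HypSys X E) : ∃ ε₀ > 0, ∀ ε > 0, ε ≤ ε₀ →
    ∀ (P : ℕ) (z : ℕ → X), 0 < P → (∀ k, k + 1 < P → dist (S.g (z k)) (z (k + 1)) ≤ ε) →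
      dist (S.g (z (P - 1))) (z 0) ≤ ε →
      ∃ p, S.g^[P] p = p ∧ ∀ k < P, dist (S.g^[k] p) (z k) ≤ 8 * S.K * ε := by
  obtain ⟨c, hc⟩ := exists_LP S
  obtain ⟨ε₁, hε₁, hsh⟩ := S.shadowing
  have hK := S.one_le_K
  have hK0 : 0 < S.K := by linarith
  have hc0 := hc.c_pos
  refine ⟨min ε₁ (c / (16 * S.K)), by positivity, fun ε hε hεε P z hP hz1 hz2 => ?_⟩
  have hε1 : ε ≤ ε₁ := hεε.trans (min_le_left _ _)
  have hε2 : 16 * S.K * ε ≤ c := by
    have : ε ≤ c / (16 * S.K) := hεε.trans (min_le_right _ _)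
    rw [le_div_iff₀ (by positivity)] at this
    linarith
  have hP0 : (0 : ℤ) < P := by exact_mod_cast hP
  let q : ℤ → X := fun n => z (n % P).toNat
  have hq : ∀ n, dist (S.g (q n)) (q (n + 1)) ≤ ε := by
    intro n
    have h0 : 0 ≤ n % P := Int.emod_nonneg n hP0.ne'
    have h1 : n % P < P := Int.emod_lt_of_pos n hP0
    show dist (S.g (z (n % P).toNat)) (z ((n + 1) % P).toNat) ≤ ε
    by_cases h2 : n % P + 1 < P
    · have h3 : (n + 1) % P = n % P + 1 := by
        rw [Int.add_emod]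
        have h5 : (1 : ℤ) % P = 1 := Int.emod_eq_of_lt (by norm_num) (by omega)
        rw [h5]
        exact Int.emod_eq_of_lt (by omega) h2
      rw [h3]
      have h4 : (n % P + 1).toNat = (n % P).toNat + 1 := by omega
      rw [h4]
      exact hz1 _ (by omega)
    · have h3 : n % P = P - 1 := by omega
      have h4 : (n + 1) % P = 0 := by
        have : n + 1 = P * (n / P) + P := by
          have := Int.mul_ediv_add_emod n P
          omega
        rw [this]
        simp
      rw [h4, h3]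
      have h5 : ((P : ℤ) - 1).toNat = P - 1 := by omega
      rw [h5]
      exact hz2
  obtain ⟨w, hw1, hw2⟩ := hsh ε hε1 q hq
  have hqP : ∀ n, q (n + P) = q n := by
    intro n
    show z ((n + P) % P).toNat = z (n % P).toNat
    rw [Int.add_emod_right]
  have hww : ∀ n, dist (w n) (w (n + P)) ≤ c := by
    intro n
    have h1 := hw2 n
    have h2 := hw2 (n + P)
    rw [hqP] at h2
    have h3 := dist_triangle (w n) (q n) (w (n + P))
    rw [dist_comm (q n)] at h3
    linarith
  have hw' : ∀ n : ℤ, w (n + 1 + P) = S.g (w (n + P)) := by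
    intro n
    rw [← hw1 (n + P)]
    congr 1
    ring
  have h1 := expansive hc w (fun n => w (n + P)) hw1 hw' hww
  refine ⟨w 0, ?_, fun k hk => ?_⟩
  · rw [← S.orbit_nat w hw1 P]
    simp only [zero_add] at h1
    exact h1.symm
  · have h2 := hw2 k
    rw [S.orbit_nat w hw1 k] at h2
    have h3 : q (k : ℤ) = z k := by
      show z ((k : ℤ) % P).toNat = z k
      rw [Int.emod_eq_of_lt (by omega) (by exact_mod_cast hk)]
      simp
    rw [h3] at h2
    exact h2

/-- Birkhoff sums -/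
noncomputable def bs (g : X → X) (φ : X → ℝ) (n : ℕ) (x : X) : ℝ :=
  ∑ k ∈ Finset.range n, φ (g^[k] x)

omit [MetricSpace X] in
theorem bs_add (g : X → X) (φ : X → ℝ) (m n : ℕ) (x : X) :
    bs g φ (m + n) x = bs g φ m x + bs g φ n (g^[m] x) := by
  unfold bs
  rw [Finset.sum_range_add]
  congr 1
  refine Finset.sum_congr rfl fun k _ => ?_
  rw [Nat.add_comm m k, Function.iterate_add_apply]

/-- Bounded distortion. -/
theorem distortion {g : X ≃ₜ X} {c : ℝ} (h : LP g c) (φ : X → ℝ) (C α r : ℝ) (hα : 0 < α)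
    (hC : 0 ≤ C) (hr : 0 < r) (hφ : ∀ x y, dist x y < r → |φ x - φ y| ≤ C * dist x y ^ α) :
    ∃ δ > 0, ∃ D ≥ 0, ∀ (x y : X) (n : ℕ), (∀ k < n, dist (g^[k] x) (g^[k] y) ≤ δ) →
      |bs g φ n x - bs g φ n y| ≤ D := by
  obtain ⟨δ, hδ, hseg⟩ := seg h
  have hc := h.c_pos
  set q : ℝ := (1 / 2 : ℝ) ^ α with hq
  have hq0 : 0 < q := by positivity
  have hq1 : q < 1 := Real.rpow_lt_one (by norm_num) (by norm_num) hα
  set A : ℝ := C * (2 * c) ^ α with hA
  have hA0 : 0 ≤ A := by positivity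
  refine ⟨min δ (r / 2), lt_min hδ (half_pos hr), 2 * (A * (1 - q)⁻¹), ?_, fun x y n hn => ?_⟩
  · have : 0 ≤ (1 - q)⁻¹ := inv_nonneg.mpr (by linarith)
    positivity
  have hterm : ∀ k < n, |φ (g^[k] x) - φ (g^[k] y)| ≤ A * q ^ k + A * q ^ (n - 1 - k) := by
    intro k hk
    have h1 := hseg x y n (fun j hj => (hn j hj).trans (min_le_left _ _)) k hk
    have h2 : dist (g^[k] x) (g^[k] y) < r := by
      have := (hn k hk).trans (min_le_right _ _)
      linarith
    refine (hφ _ _ h2).trans ?_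
    set a := c * (1 / 2 : ℝ) ^ k with ha
    set b := c * (1 / 2 : ℝ) ^ (n - 1 - k) with hb
    have ha0 : 0 ≤ a := by positivity
    have hb0 : 0 ≤ b := by positivity
    have h3 : dist (g^[k] x) (g^[k] y) ^ α ≤ (2 * a) ^ α + (2 * b) ^ α := by
      rcases le_total a b with hab | hab
      · have h4 : dist (g^[k] x) (g^[k] y) ^ α ≤ (2 * b) ^ α :=
          Real.rpow_le_rpow dist_nonneg (by linarith) hα.le
        have h5 : 0 ≤ (2 * a) ^ α := by positivity
        linarith
      · have h4 : dist (g^[k] x) (g^[k] y) ^ α ≤ (2 * a) ^ α :=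
          Real.rpow_le_rpow dist_nonneg (by linarith) hα.le
        have h5 : 0 ≤ (2 * b) ^ α := by positivity
        linarith
    have h6 : ∀ j : ℕ, (2 * (c * (1 / 2 : ℝ) ^ j)) ^ α = (2 * c) ^ α * q ^ j := by
      intro j
      rw [← mul_assoc, Real.mul_rpow (by positivity) (by positivity), hq, ← Real.rpow_natCast,
        ← Real.rpow_mul (by norm_num), ← Real.rpow_natCast, ← Real.rpow_mul (by norm_num),
        mul_comm (j : ℝ) α]
    rw [h6, h6] at h3
    calc C * dist (g^[k] x) (g^[k] y) ^ α ≤ C * ((2 * c) ^ α * q ^ k + (2 * c) ^ α * q ^ (n - 1 - k)) :=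
          mul_le_mul_of_nonneg_left h3 hC
      _ = _ := by rw [hA]; ring
  have hgeom : ∑ k ∈ Finset.range n, q ^ k ≤ (1 - q)⁻¹ := by
    have h1 : ∑ k ∈ Finset.range n, q ^ k ≤ ∑' k : ℕ, q ^ k :=
      (summable_geometric_of_lt_one hq0.le hq1).sum_le_tsum _ (fun k _ => by positivity)
    rwa [tsum_geometric_of_lt_one hq0.le hq1] at h1
  calc |bs g φ n x - bs g φ n y| = |∑ k ∈ Finset.range n, (φ (g^[k] x) - φ (g^[k] y))| := by
        unfold bs; rw [Finset.sum_sub_distrib]
    _ ≤ ∑ k ∈ Finset.range n, |φ (g^[k] x) - φ (g^[k] y)| := Finset.abs_sum_le_sum_abs _ _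
    _ ≤ ∑ k ∈ Finset.range n, (A * q ^ k + A * q ^ (n - 1 - k)) :=
        Finset.sum_le_sum fun k hk => hterm k (Finset.mem_range.mp hk)
    _ = A * ∑ k ∈ Finset.range n, q ^ k + A * ∑ k ∈ Finset.range n, q ^ k := by
        rw [Finset.sum_add_distrib, ← Finset.mul_sum, ← Finset.mul_sum,
          Finset.sum_range_reflect (fun k => q ^ k) n]
    _ ≤ A * (1 - q)⁻¹ + A * (1 - q)⁻¹ :=
        add_le_add (mul_le_mul_of_nonneg_left hgeom hA0) (mul_le_mul_of_nonneg_left hgeom hA0)
    _ = _ := by ring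

end Pool.Agent.W5h70.AJ
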