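import Mathlib

set_option autoImplicit false

open scoped Topology
open Set Filter Metric

namespace Pool.Agent.W5h70.AJ

/-- local Hölder continuity near a point -/
def LH {Y Z : Type*} [PseudoMetricSpace Y] [PseudoMetricSpace Z] (ψ : Y → Z) (y : Y) : Prop :=
  ∃ C α : ℝ, 0 ≤ C ∧ 0 < α ∧ ∃ s ∈ 𝓝 y, ∀ u ∈ s, ∀ v ∈ s, dist (ψ u) (ψ v) ≤ C * dist u v ^ α

variable {Y Z W : Type*} [PseudoMetricSpace Y] [PseudoMetricSpace Z] [PseudoMetricSpace W]

theorem LH.continuousAt {ψ : Y → Z} {y : Y} (h : LH ψ y) : ContinuousAt ψ y := by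
  obtain ⟨C, α, hC, hα, s, hs, h⟩ := h
  rw [ContinuousAt, tendsto_iff_dist_tendsto_zero]
  have h1 : Tendsto (fun z => dist z y) (𝓝 y) (𝓝 0) :=
    tendsto_iff_dist_tendsto_zero.mp (tendsto_id (α := Y))
  have h2 : Tendsto (fun z => C * dist z y ^ α) (𝓝 y) (𝓝 (C * 0 ^ α)) := by
    have h3 : Tendsto (fun s : ℝ => C * s ^ α) (𝓝 0) (𝓝 (C * 0 ^ α)) := by
      apply Continuous.tendsto
      exact continuous_const.mul (Real.continuous_rpow_const hα.le)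
    exact h3.comp h1
  rw [Real.zero_rpow hα.ne', mul_zero] at h2
  refine squeeze_zero' (Eventually.of_forall fun _ => dist_nonneg) ?_ h2
  filter_upwards [hs] with z hz
  exact h z hz y (mem_of_mem_nhds hs)

theorem LH.comp {ψ : Z → W} {T : Y → Z} {y : Y} (h : LH ψ (T y)) (hT : LH T y) :
    LH (ψ ∘ T) y := by
  have hc := hT.continuousAt
  obtain ⟨C, α, hC, hα, s, hs, h⟩ := h
  obtain ⟨C', β, hC', hβ, s', hs', h'⟩ := hT
  refine ⟨C * C' ^ α, β * α, by positivity, by positivity, s' ∩ T ⁻¹' s,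
    inter_mem hs' (hc.preimage_mem_nhds hs), fun u hu v hv => ?_⟩
  refine (h _ hu.2 _ hv.2).trans ?_
  rw [Real.rpow_mul dist_nonneg, mul_assoc, ← Real.mul_rpow hC' (by positivity)]
  exact mul_le_mul_of_nonneg_left (Real.rpow_le_rpow dist_nonneg (h' _ hu.1 _ hv.1) hα.le) hC

theorem LH.congr {ψ ψ' : Y → Z} {y : Y} (h : LH ψ y) (he : ψ =ᶠ[𝓝 y] ψ') : LH ψ' y := by
  obtain ⟨C, α, hC, hα, s, hs, h⟩ := h
  refine ⟨C, α, hC, hα, s ∩ {z | ψ z = ψ' z}, inter_mem hs he, fun u hu v hv => ?_⟩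
  rw [← (show ψ u = ψ' u from hu.2), ← (show ψ v = ψ' v from hv.2)]
  exact h u hu.1 v hv.1

theorem LH.small {ψ : Y → Z} {y : Y} (h : LH ψ y) : ∃ α₀ : ℝ, α₀ > 0 ∧ ∀ α : ℝ, 0 < α → α ≤ α₀ →
    ∃ C, 0 ≤ C ∧ ∃ s ∈ 𝓝 y, ∀ u ∈ s, ∀ v ∈ s, dist (ψ u) (ψ v) ≤ C * dist u v ^ α := by
  obtain ⟨C, α, hC, hα, s, hs, h⟩ := h
  refine ⟨α, hα, fun β hβ hβα => ⟨C, hC, s ∩ ball y (1 / 2), inter_mem hs
    (ball_mem_nhds _ (by norm_num)), fun u hu v hv => (h u hu.1 v hv.1).trans ?_⟩⟩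
  apply mul_le_mul_of_nonneg_left _ hC
  have h1 : dist u v ≤ 1 := by
    have := dist_triangle_right u v y
    have h2 := mem_ball.mp hu.2
    have h3 := mem_ball.mp hv.2
    linarith
  rcases eq_or_lt_of_le (dist_nonneg (x := u) (y := v)) with h0 | h0
  · rw [← h0, Real.zero_rpow hα.ne', Real.zero_rpow hβ.ne']
  · exact Real.rpow_le_rpow_of_exponent_ge h0 h1 hβα

theorem LH.add {ψ ψ' : Y → ℝ} {y : Y} (h : LH ψ y) (h' : LH ψ' y) :
    LH (fun z => ψ z + ψ' z) y := by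
  obtain ⟨α, hα, h1⟩ := h.small
  obtain ⟨β, hβ, h2⟩ := h'.small
  obtain ⟨C, hC, s, hs, h3⟩ := h1 (min α β) (lt_min hα hβ) (min_le_left _ _)
  obtain ⟨C', hC', s', hs', h4⟩ := h2 (min α β) (lt_min hα hβ) (min_le_right _ _)
  refine ⟨C + C', min α β, by positivity, lt_min hα hβ, s ∩ s', inter_mem hs hs',
    fun u hu v hv => ?_⟩
  have h5 := h3 u hu.1 v hv.1
  have h6 := h4 u hu.2 v hv.2
  rw [Real.dist_eq] at *
  have h7 : ψ u + ψ' u - (ψ v + ψ' v) = (ψ u - ψ v) + (ψ' u - ψ' v) := by ring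
  rw [h7]
  refine (abs_add_le _ _).trans ?_
  rw [add_mul]
  linarith

theorem LH.neg {ψ : Y → ℝ} {y : Y} (h : LH ψ y) : LH (fun z => -ψ z) y := by
  obtain ⟨C, α, hC, hα, s, hs, h⟩ := h
  refine ⟨C, α, hC, hα, s, hs, fun u hu v hv => ?_⟩
  rw [dist_neg_neg]
  exact h u hu v hv

theorem lh_of_lipschitz {ψ : Y → Z} {y : Y} (C : ℝ) (s : Set Y) (hs : s ∈ 𝓝 y)
    (h : ∀ u ∈ s, ∀ v ∈ s, dist (ψ u) (ψ v) ≤ C * dist u v) : LH ψ y := by
  refine ⟨|C|, 1, abs_nonneg _, one_pos, s, hs, fun u hu v hv => ?_⟩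
  rw [Real.rpow_one]
  exact (h u hu v hv).trans (mul_le_mul_of_nonneg_right (le_abs_self _) dist_nonneg)

theorem lh_of_contDiffAt {E F : Type*} [NormedAddCommGroup E] [NormedSpace ℝ E]
    [NormedAddCommGroup F] [NormedSpace ℝ F] {ψ : E → F} {u : E} (h : ContDiffAt ℝ 1 ψ u) :
    LH ψ u := by
  obtain ⟨K, s, hs, hK⟩ := h.exists_lipschitzOnWith
  exact lh_of_lipschitz K s hs fun a ha b hb => hK.dist_le_mul a ha b hb

theorem LH.log {ψ : Y → ℝ} {y : Y} (h : LH ψ y) (hpos : ψ y ≠ 0) :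
    LH (fun z => Real.log (ψ z)) y := by
  have h1 : LH Real.log (ψ y) := lh_of_contDiffAt (Real.contDiffAt_log.mpr hpos)
  exact h1.comp h

/-- uniform Hölder constants on a compact space -/
theorem lh_uniform [CompactSpace Y] {ψ : Y → Z} (h : ∀ y, LH ψ y) :
    ∃ C α r : ℝ, 0 ≤ C ∧ 0 < α ∧ 0 < r ∧ ∀ u v, dist u v < r →
      dist (ψ u) (ψ v) ≤ C * dist u v ^ α := by
  choose α₀ hα₀ h1 using fun y => (h y).small
  -- a common exponent
  obtain ⟨α, hα, C, s, hC, hs, h2⟩ : ∃ α : ℝ, 0 < α ∧ ∃ (C : Y → ℝ) (s : Y → Set Y),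
      (∀ y, 0 ≤ C y) ∧ (∀ y, s y ∈ 𝓝 y) ∧ ∃ t : Finset Y, univ ⊆ ⋃ y ∈ t, interior (s y) ∧
        ∀ y ∈ t, ∀ u ∈ s y, ∀ v ∈ s y, dist (ψ u) (ψ v) ≤ C y * dist u v ^ α := by
    choose C hC s hs h3 using fun y => h1 y (α₀ y) (hα₀ y) le_rfl
    have hs' : ∀ y, s y ∩ ball y (1 / 2) ∈ 𝓝 y := fun y =>
      inter_mem (hs y) (ball_mem_nhds _ (by norm_num))
    obtain ⟨t, ht⟩ := isCompact_univ.elim_finite_subcover
      (fun y => interior (s y ∩ ball y (1 / 2))) (fun y => isOpen_interior)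
      (fun y _ => mem_iUnion.mpr ⟨y, mem_interior_iff_mem_nhds.mpr (hs' y)⟩)
    obtain ⟨α, hα, hα1⟩ : ∃ α : ℝ, α > 0 ∧ ∀ y ∈ t, α ≤ α₀ y := by
      clear ht
      classical
      induction t using Finset.induction_on with
      | empty => exact ⟨1, one_pos, by simp⟩
      | @insert a t _ ih =>
        obtain ⟨α, hα, h4⟩ := ih
        refine ⟨min α (α₀ a), lt_min hα (hα₀ a), fun y hy => ?_⟩
        rcases Finset.mem_insert.mp hy with rfl | hy
        · exact min_le_right _ _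
        · exact (min_le_left _ _).trans (h4 y hy)
    refine ⟨α, hα, C, fun y => s y ∩ ball y (1 / 2), hC, hs', t, ht, fun y hy u hu v hv => ?_⟩
    refine (h3 y u hu.1 v hv.1).trans (mul_le_mul_of_nonneg_left ?_ (hC y))
    have h1 : dist u v ≤ 1 := by
      have := dist_triangle_right u v y
      have h2 := mem_ball.mp hu.2
      have h3 := mem_ball.mp hv.2
      linarith
    rcases eq_or_lt_of_le (dist_nonneg (x := u) (y := v)) with h0 | h0
    · rw [← h0, Real.zero_rpow hα.ne', Real.zero_rpow (hα₀ y).ne']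
    · exact Real.rpow_le_rpow_of_exponent_ge h0 h1 (hα1 y hy)
  obtain ⟨t, ht, h3⟩ := h2
  obtain ⟨r, hr, hcov⟩ := lebesgue_number_lemma_of_metric (isCompact_univ (X := Y))
    (c := fun y : t => interior (s y)) (fun y => isOpen_interior) (by
      intro y hy
      have := ht hy
      simp only [mem_iUnion, exists_prop] at this ⊢
      obtain ⟨z, hz, h4⟩ := this
      exact ⟨⟨z, hz⟩, h4⟩)
  refine ⟨∑ y ∈ t, C y, α, r, Finset.sum_nonneg fun y _ => hC y, hα, hr, fun u v huv => ?_⟩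
  obtain ⟨⟨y, hy⟩, h4⟩ := hcov u (mem_univ u)
  have h5 := h3 y hy u (interior_subset (h4 (mem_ball_self hr))) v
    (interior_subset (h4 (by rwa [mem_ball, dist_comm])))
  refine h5.trans (mul_le_mul_of_nonneg_right ?_ (by positivity))
  exact Finset.single_le_sum (f := C) (fun y _ => hC y) hy

end Pool.Agent.W5h70.AJ
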