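import Pool.Agent.W5h70.AJ.Gram
import Pool.Agent.W5h70.AJ.LH
import Pool.Agent.H721R2.Build

set_option autoImplicit false

open scoped Manifold ContDiff Topology
open Set Filter Module

namespace Pool.Agent.W5h70.AJ

open Pool.Agent.H721R2

section coord

variable {ι : Type*} [Fintype ι] [DecidableEq ι]
  {E : Type*} [NormedAddCommGroup E] [NormedSpace ℝ E]
  {M : Type*} [TopologicalSpace M] [ChartedSpace E M] [IsManifold 𝓘(ℝ, E) ∞ M]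
  {F : Type*} [NormedAddCommGroup F] [InnerProductSpace ℝ F]

/-- density of the volume induced by `e` -/
noncomputable def Gv (b : Basis ι ℝ E) (e : M → F) (p : M) : ℝ := √(gd b (dm E e p))

/-- density of the volume induced by `e`, in the chart at `x` -/
noncomputable def Gc (b : Basis ι ℝ E) (e : M → F) (x : M) (u : E) : ℝ :=
  √(gd b (fderiv ℝ (hatMap e x) u))

/-- Coordinate expression of `h : M → M` in the charts at `x` and at `y`. -/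
noncomputable def Tc (h : M → M) (x y : M) : E → E :=
  (extChartAt 𝓘(ℝ, E) y) ∘ h ∘ (extChartAt 𝓘(ℝ, E) x).symm

theorem isManifold_one : IsManifold 𝓘(ℝ, E) 1 M := IsManifold.of_le (n := ∞) (by simp)

theorem dm_eq (e : M → F) (he : ContMDiff 𝓘(ℝ, E) 𝓘(ℝ, F) 1 e) (x p : M)
    (hp : p ∈ (extChartAt 𝓘(ℝ, E) x).source) :
    dm E e p = (fderiv ℝ (hatMap e x) (extChartAt 𝓘(ℝ, E) x p)).comp
      (dm E (extChartAt 𝓘(ℝ, E) x) p) := by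
  have : IsManifold 𝓘(ℝ, E) 1 M := isManifold_one
  ext v
  exact hatMap_mfderiv e he x p hp v

theorem Gv_eq (b : Basis ι ℝ E) (e : M → F) (he : ContMDiff 𝓘(ℝ, E) 𝓘(ℝ, F) 1 e) (x p : M)
    (hp : p ∈ (extChartAt 𝓘(ℝ, E) x).source) :
    Gv b e p = |(dm E (extChartAt 𝓘(ℝ, E) x) p).det| * Gc b e x (extChartAt 𝓘(ℝ, E) x p) := by
  unfold Gv Gc
  rw [dm_eq e he x p hp, gd_comp, Real.sqrt_mul (sq_nonneg _), Real.sqrt_sq_eq_abs]

theorem chart_equiv (x p : M) (hp : p ∈ (extChartAt 𝓘(ℝ, E) x).source) :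
    ∃ A : E ≃L[ℝ] E, (A : E →L[ℝ] E) = dm E (extChartAt 𝓘(ℝ, E) x) p := by
  have : IsManifold 𝓘(ℝ, E) 1 M := isManifold_one
  obtain ⟨A, hA⟩ := isInvertible_mfderiv_extChartAt (I := 𝓘(ℝ, E)) hp
  exact ⟨A, hA⟩

theorem chart_det_ne (x p : M) (hp : p ∈ (extChartAt 𝓘(ℝ, E) x).source) :
    (dm E (extChartAt 𝓘(ℝ, E) x) p).det ≠ 0 := by
  obtain ⟨A, hA⟩ := chart_equiv (E := E) x p hp
  rw [← hA]
  exact (LinearEquiv.isUnit_det' A.toLinearEquiv).ne_zero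

theorem Gv_pos (b : Basis ι ℝ E) (e : M → F) (hinj : ∀ x, Function.Injective (dm E e x)) (p : M) :
    0 < Gv b e p := Real.sqrt_pos.mpr (gd_pos b _ (hinj p))

theorem fderiv_inj (e : M → F) (he : ContMDiff 𝓘(ℝ, E) 𝓘(ℝ, F) 1 e)
    (hinj : ∀ x, Function.Injective (dm E e x)) (x : M) (u : E)
    (hu : u ∈ (extChartAt 𝓘(ℝ, E) x).target) :
    Function.Injective (fderiv ℝ (hatMap e x) u) := by
  have : IsManifold 𝓘(ℝ, E) 1 M := isManifold_one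
  set p := (extChartAt 𝓘(ℝ, E) x).symm u with hp
  have hps : p ∈ (extChartAt 𝓘(ℝ, E) x).source := (extChartAt 𝓘(ℝ, E) x).map_target hu
  have hpu : extChartAt 𝓘(ℝ, E) x p = u := (extChartAt 𝓘(ℝ, E) x).right_inv hu
  obtain ⟨A, hA⟩ := chart_equiv (E := E) x p hps
  have hA' : ∀ w : E, dm E (extChartAt 𝓘(ℝ, E) x) p (A.symm w) = w := by
    intro w
    rw [← hA]; exact A.apply_symm_apply w
  intro a c hac
  have h1 : ∀ w : E, dm E e p (A.symm w) = fderiv ℝ (hatMap e x) u w := by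
    intro w
    rw [hatMap_mfderiv e he x p hps, hA', hpu]
  have h2 : dm E e p (A.symm a) = dm E e p (A.symm c) := by rw [h1, h1]; exact hac
  exact A.symm.injective (hinj p h2)

theorem Gc_pos (b : Basis ι ℝ E) (e : M → F) (he : ContMDiff 𝓘(ℝ, E) 𝓘(ℝ, F) 1 e)
    (hinj : ∀ x, Function.Injective (dm E e x)) (x : M) (u : E)
    (hu : u ∈ (extChartAt 𝓘(ℝ, E) x).target) : 0 < Gc b e x u :=
  Real.sqrt_pos.mpr (gd_pos b _ (fderiv_inj e he hinj x u hu))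

theorem hatMap_contDiffAt' (e : M → F) (he : ContMDiff 𝓘(ℝ, E) 𝓘(ℝ, F) ∞ e) (x : M) (p : E)
    (hp : p ∈ (extChartAt 𝓘(ℝ, E) x).target) : ContDiffAt ℝ ∞ (hatMap e x) p := by
  rw [← contMDiffAt_iff_contDiffAt]
  have h1 : ContMDiffOn 𝓘(ℝ, E) 𝓘(ℝ, E) ∞ (extChartAt 𝓘(ℝ, E) x).symm
      (extChartAt 𝓘(ℝ, E) x).target := contMDiffOn_extChartAt_symm x
  have h2 : ContMDiffAt 𝓘(ℝ, E) 𝓘(ℝ, E) ∞ (extChartAt 𝓘(ℝ, E) x).symm p :=
    h1.contMDiffAt ((isOpen_extChartAt_target x).mem_nhds hp)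
  exact ContMDiffAt.comp p he.contMDiffAt h2

theorem Gc_contDiffAt (b : Basis ι ℝ E) (e : M → F) (he : ContMDiff 𝓘(ℝ, E) 𝓘(ℝ, F) ∞ e)
    (hinj : ∀ x, Function.Injective (dm E e x)) (x : M) (u : E)
    (hu : u ∈ (extChartAt 𝓘(ℝ, E) x).target) : ContDiffAt ℝ 1 (Gc b e x) u := by
  have h1 : ContDiffAt ℝ 1 (fderiv ℝ (hatMap e x)) u :=
    (hatMap_contDiffAt' e he x u hu).fderiv_right (m := 1) (by norm_cast)
  have h2 := gd_contDiffAt b h1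
  have h3 := gd_pos b _ (fderiv_inj e (he.of_le (by simp)) hinj x u hu)
  exact h2.sqrt h3.ne'

theorem Tc_mdiff (h : M → M) (hh : ContMDiff 𝓘(ℝ, E) 𝓘(ℝ, E) 1 h) (x y p : M)
    (hp : p ∈ (extChartAt 𝓘(ℝ, E) x).source) (hq : h p ∈ (extChartAt 𝓘(ℝ, E) y).source) :
    ContDiffAt ℝ 1 (Tc (E := E) h x y) (extChartAt 𝓘(ℝ, E) x p) := by
  have : IsManifold 𝓘(ℝ, E) 1 M := isManifold_one
  rw [← contMDiffAt_iff_contDiffAt]
  have hpt : extChartAt 𝓘(ℝ, E) x p ∈ (extChartAt 𝓘(ℝ, E) x).target :=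
    (extChartAt 𝓘(ℝ, E) x).map_source hp
  have h1 : ContMDiffOn 𝓘(ℝ, E) 𝓘(ℝ, E) 1 (extChartAt 𝓘(ℝ, E) x).symm
      (extChartAt 𝓘(ℝ, E) x).target := contMDiffOn_extChartAt_symm x
  have h2 : ContMDiffAt 𝓘(ℝ, E) 𝓘(ℝ, E) 1 (extChartAt 𝓘(ℝ, E) x).symm
      (extChartAt 𝓘(ℝ, E) x p) :=
    h1.contMDiffAt ((isOpen_extChartAt_target x).mem_nhds hpt)
  have hpp : (extChartAt 𝓘(ℝ, E) x).symm (extChartAt 𝓘(ℝ, E) x p) = p :=
    (extChartAt 𝓘(ℝ, E) x).left_inv hp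
  have h3 : ContMDiffAt 𝓘(ℝ, E) 𝓘(ℝ, E) 1 (h ∘ (extChartAt 𝓘(ℝ, E) x).symm)
      (extChartAt 𝓘(ℝ, E) x p) := ContMDiffAt.comp _ hh.contMDiffAt h2
  have h4 : ContMDiffAt 𝓘(ℝ, E) 𝓘(ℝ, E) 1 (extChartAt 𝓘(ℝ, E) y)
      ((h ∘ (extChartAt 𝓘(ℝ, E) x).symm) (extChartAt 𝓘(ℝ, E) x p)) := by
    show ContMDiffAt 𝓘(ℝ, E) 𝓘(ℝ, E) 1 (extChartAt 𝓘(ℝ, E) y)
      (h ((extChartAt 𝓘(ℝ, E) x).symm (extChartAt 𝓘(ℝ, E) x p)))
    rw [hpp]
    apply contMDiffAt_extChartAt'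
    rwa [extChartAt_source] at hq
  exact ContMDiffAt.comp _ h4 h3

theorem Tc_fderiv (h : M → M) (hh : ContMDiff 𝓘(ℝ, E) 𝓘(ℝ, E) 1 h) (x y p : M)
    (hp : p ∈ (extChartAt 𝓘(ℝ, E) x).source) (hq : h p ∈ (extChartAt 𝓘(ℝ, E) y).source) :
    (fderiv ℝ (Tc (E := E) h x y) (extChartAt 𝓘(ℝ, E) x p)).comp
      (dm E (extChartAt 𝓘(ℝ, E) x) p) =
    (dm E (extChartAt 𝓘(ℝ, E) y) (h p)).comp (dg E h p) := by
  have : IsManifold 𝓘(ℝ, E) 1 M := isManifold_one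
  have e1 : (extChartAt 𝓘(ℝ, E) y) ∘ h =ᶠ[𝓝 p] (Tc (E := E) h x y) ∘ (extChartAt 𝓘(ℝ, E) x) := by
    filter_upwards [(isOpen_extChartAt_source (I := 𝓘(ℝ, E)) x).mem_nhds hp] with z hz
    show _ = extChartAt 𝓘(ℝ, E) y (h ((extChartAt 𝓘(ℝ, E) x).symm (extChartAt 𝓘(ℝ, E) x z)))
    rw [(extChartAt 𝓘(ℝ, E) x).left_inv hz]
    rfl
  have hT : MDifferentiableAt 𝓘(ℝ, E) 𝓘(ℝ, E) (Tc (E := E) h x y) (extChartAt 𝓘(ℝ, E) x p) :=
    (contMDiffAt_iff_contDiffAt.mpr (Tc_mdiff h hh x y p hp hq)).mdifferentiableAt (by norm_num)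
  have hx : MDifferentiableAt 𝓘(ℝ, E) 𝓘(ℝ, E) (extChartAt 𝓘(ℝ, E) x) p := by
    apply mdifferentiableAt_extChartAt
    rwa [extChartAt_source] at hp
  have hy : MDifferentiableAt 𝓘(ℝ, E) 𝓘(ℝ, E) (extChartAt 𝓘(ℝ, E) y) (h p) := by
    apply mdifferentiableAt_extChartAt
    rwa [extChartAt_source] at hq
  have hm : MDifferentiableAt 𝓘(ℝ, E) 𝓘(ℝ, E) h p := hh.mdifferentiableAt (by norm_num)
  have h1 := mfderiv_comp p hT hx
  have h2 := mfderiv_comp p hy hm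
  rw [← e1.mfderiv_eq, h2, mfderiv_eq_fderiv] at h1
  exact h1.symm

/-- the Jacobian of `h` with respect to the volume of `e` -/
noncomputable def Jc (b : Basis ι ℝ E) (e : M → F) (h : M → M) (p : M) : ℝ :=
  Gv b e (h p) * |(dg E h p).det| / Gv b e p

theorem Jc_eq (b : Basis ι ℝ E) (e : M → F) (he : ContMDiff 𝓘(ℝ, E) 𝓘(ℝ, F) 1 e)
    (hinj : ∀ x, Function.Injective (dm E e x))
    (h : M → M) (hh : ContMDiff 𝓘(ℝ, E) 𝓘(ℝ, E) 1 h) (x y p : M)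
    (hp : p ∈ (extChartAt 𝓘(ℝ, E) x).source) (hq : h p ∈ (extChartAt 𝓘(ℝ, E) y).source) :
    Jc b e h p = Gc b e y (Tc (E := E) h x y (extChartAt 𝓘(ℝ, E) x p)) *
      |(fderiv ℝ (Tc (E := E) h x y) (extChartAt 𝓘(ℝ, E) x p)).det| /
        Gc b e x (extChartAt 𝓘(ℝ, E) x p) := by
  have h1 := congrArg ContinuousLinearMap.det (Tc_fderiv h hh x y p hp hq)
  have h2 : (fderiv ℝ (Tc (E := E) h x y) (extChartAt 𝓘(ℝ, E) x p)).det *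
      (dm E (extChartAt 𝓘(ℝ, E) x) p).det =
      (dm E (extChartAt 𝓘(ℝ, E) y) (h p)).det * (dg E h p).det := by
    have e1 : ∀ A B : E →L[ℝ] E, (A.comp B).det = A.det * B.det := fun A B =>
      LinearMap.det_comp _ _
    rwa [e1, e1] at h1
  have h3 : Tc (E := E) h x y (extChartAt 𝓘(ℝ, E) x p) = extChartAt 𝓘(ℝ, E) y (h p) := by
    show extChartAt 𝓘(ℝ, E) y (h ((extChartAt 𝓘(ℝ, E) x).symm (extChartAt 𝓘(ℝ, E) x p))) = _
    rw [(extChartAt 𝓘(ℝ, E) x).left_inv hp]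
  have h4 := chart_det_ne (E := E) x p hp
  have h5 := Gc_pos b e he hinj x (extChartAt 𝓘(ℝ, E) x p) ((extChartAt 𝓘(ℝ, E) x).map_source hp)
  unfold Jc
  rw [Gv_eq b e he x p hp, Gv_eq b e he y (h p) hq, h3]
  have h6 := congrArg abs h2
  rw [abs_mul, abs_mul] at h6
  have h7 : |(dm E (extChartAt 𝓘(ℝ, E) x) p).det| ≠ 0 := abs_ne_zero.mpr h4
  rw [div_eq_div_iff (by positivity) h5.ne']
  linear_combination (-(Gc b e y (extChartAt 𝓘(ℝ, E) y (h p))) *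
    Gc b e x (extChartAt 𝓘(ℝ, E) x p)) * h6

end coord

end Pool.Agent.W5h70.AJ
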