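import Pool.Agent.H789R2.AN.Def

set_option autoImplicit false

open scoped Manifold ContDiff Topology
open Set Filter MeasureTheory

namespace Pool.Agent.W5h70.AJ

variable (E : Type*) [NormedAddCommGroup E] [NormedSpace ℝ E]
  {M : Type*} [TopologicalSpace M] [ChartedSpace E M]

/-- The map `f` read in the preferred charts at `x` and at `f x`. -/
noncomputable def inCharts (f : M → M) (x : M) : E → E :=
  extChartAt 𝓘(ℝ, E) (f x) ∘ f ∘ (extChartAt 𝓘(ℝ, E) x).symm

/-- In the charts, the absolute value of the Jacobian determinant of `f` is locally Hölder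
continuous.  This holds when `f` is of class `C^(1+ε)`, or when `f` is of class `C¹` and preserves
a smooth volume. -/
def HolderJacobian (f : M → M) : Prop :=
  ∀ x : M, ∃ C α : ℝ, 0 < α ∧ ∃ s ∈ 𝓝 (extChartAt 𝓘(ℝ, E) x x), ∀ u ∈ s, ∀ v ∈ s,
    |(|(fderiv ℝ (inCharts E f x) u).det| - |(fderiv ℝ (inCharts E f x) v).det|)| ≤
      C * ‖u - v‖ ^ α

/-- `φ` is locally Hölder continuous in the charts of `M`. -/
def HolderInCharts (φ : M → ℝ) : Prop :=
  ∀ x : M, ∃ C α : ℝ, 0 < α ∧ ∃ s ∈ 𝓝 x, ∀ p ∈ s, ∀ q ∈ s,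
    |φ p - φ q| ≤ C * ‖extChartAt 𝓘(ℝ, E) x p - extChartAt 𝓘(ℝ, E) x q‖ ^ α

/-- The absolute value of the determinant of `D_p fⁿ`; it is used at points with `fⁿ p = p`, where
`D_p fⁿ` is an endomorphism of the tangent space at `p`. -/
noncomputable def absDet (f : M → M) (n : ℕ) (p : M) : ℝ :=
  |(mfderiv 𝓘(ℝ, E) 𝓘(ℝ, E) (f^[n]) p : E →L[ℝ] E).det|

/-- Some finite Borel measure `μ` on `M`, positive on nonempty open sets, satisfies
`μ (f B) = ∫_B exp φ dμ` for all Borel sets `B`. -/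
def IsLogJacobian {M : Type*} [TopologicalSpace M] (f : M → M) (φ : M → ℝ) : Prop :=
  ∃ (_ : MeasurableSpace M) (_ : BorelSpace M) (μ : Measure M), IsFiniteMeasure μ ∧
    (∀ U : Set M, IsOpen U → U.Nonempty → μ U ≠ 0) ∧
    ∀ B, MeasurableSet B → μ (f '' B) = ∫⁻ x in B, ENNReal.ofReal (Real.exp (φ x)) ∂μ

end Pool.Agent.W5h70.AJ
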