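import Pool.Agent.W5h70.AJ.Coord
import Pool.Agent.W5h70.AJ.Abs
import Pool.Agent.W5h70.AJ.Def

set_option autoImplicit false
set_option linter.unusedSectionVars false

open scoped Manifold ContDiff Topology
open Set Filter Module

namespace Pool.Agent.W5h70.AJ

open Pool.Agent.H721R2

section metric

variable {ι : Type*} [Fintype ι] [DecidableEq ι]
  {E : Type*} [NormedAddCommGroup E] [NormedSpace ℝ E] [FiniteDimensional ℝ E]
  {M : Type*} [MetricSpace M] [ChartedSpace E M] [IsManifold 𝓘(ℝ, E) ∞ M]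
  {F : Type*} [NormedAddCommGroup F] [InnerProductSpace ℝ F]

/-- charts are locally Lipschitz for the metric of an immersion -/
theorem chart_lh {e : M → F} (hiso : ∀ x y, dist x y = ‖e x - e y‖)
    (he : ContMDiff 𝓘(ℝ, E) 𝓘(ℝ, F) 1 e) (hinj : ∀ x, Function.Injective (dm E e x)) (x : M) :
    LH (extChartAt 𝓘(ℝ, E) x) x := by
  have : IsManifold 𝓘(ℝ, E) 1 M := isManifold_one
  set p₀ := extChartAt 𝓘(ℝ, E) x x with hp₀
  set L := fderiv ℝ (hatMap e x) p₀ with hL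
  have hLinj : Function.Injective L := fderiv_inj e he hinj x p₀ (mem_extChartAt_target x)
  obtain ⟨K, hK0, hK⟩ := (LinearMap.injective_iff_antilipschitz (L : E →ₗ[ℝ] F)).mp hLinj
  set κ : ℝ := (K : ℝ) with hκ
  have hκ0 : 0 < κ := hK0
  have hLlow : ∀ w : E, ‖w‖ ≤ κ * ‖L w‖ := fun w =>
    ZeroHomClass.bound_of_antilipschitz (L : E →ₗ[ℝ] F) hK w
  obtain ⟨r, hr, a1, a2, a3⟩ := hatMap_local e he x (1 / (4 * κ)) (by positivity)
  have h1 : ContinuousAt (extChartAt 𝓘(ℝ, E) x) x := continuousAt_extChartAt x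
  refine lh_of_lipschitz (2 * κ) ((extChartAt 𝓘(ℝ, E) x).source ∩
    (extChartAt 𝓘(ℝ, E) x) ⁻¹' Metric.ball p₀ r)
    (inter_mem ((isOpen_extChartAt_source (I := 𝓘(ℝ, E)) x).mem_nhds (mem_extChartAt_source x))
      (h1.preimage_mem_nhds (Metric.ball_mem_nhds _ hr))) ?_
  rintro y ⟨hys, hyb⟩ z ⟨hzs, hzb⟩
  set p := extChartAt 𝓘(ℝ, E) x y with hp
  set q := extChartAt 𝓘(ℝ, E) x z with hq
  have ey : e y = hatMap e x p := by
    show e y = e ((extChartAt 𝓘(ℝ, E) x).symm (extChartAt 𝓘(ℝ, E) x y))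
    rw [(extChartAt 𝓘(ℝ, E) x).left_inv hys]
  have ez : e z = hatMap e x q := by
    show e z = e ((extChartAt 𝓘(ℝ, E) x).symm (extChartAt 𝓘(ℝ, E) x z))
    rw [(extChartAt 𝓘(ℝ, E) x).left_inv hzs]
  rw [dist_comm, dist_comm y z, dist_eq_norm, hiso, ey, ez]
  have h2 := a3 p hyb q hzb
  have h3 := a2 p hyb
  have h4 := hLlow (q - p)
  have h5 : ‖L (q - p)‖ ≤ ‖hatMap e x q - hatMap e x p‖ + 2 * (1 / (4 * κ)) * ‖q - p‖ := by
    have e1 : L (q - p) = (hatMap e x q - hatMap e x p) - (hatMap e x q - hatMap e x p -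
        fderiv ℝ (hatMap e x) p (q - p)) - (fderiv ℝ (hatMap e x) p - L) (q - p) := by
      simp only [sub_apply]
      abel
    rw [e1]
    refine (norm_sub_le _ _).trans ?_
    have h6 := norm_sub_le (hatMap e x q - hatMap e x p) (hatMap e x q - hatMap e x p -
        fderiv ℝ (hatMap e x) p (q - p))
    have h7 := (ContinuousLinearMap.le_opNorm (fderiv ℝ (hatMap e x) p - L) (q - p)).trans
      (mul_le_mul_of_nonneg_right h3 (norm_nonneg _))
    linarith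
  have h6 : κ * ‖L (q - p)‖ ≤ κ * (‖hatMap e x q - hatMap e x p‖ +
      2 * (1 / (4 * κ)) * ‖q - p‖) := mul_le_mul_of_nonneg_left h5 hκ0.le
  have h7 : κ * (‖hatMap e x q - hatMap e x p‖ + 2 * (1 / (4 * κ)) * ‖q - p‖) =
      κ * ‖hatMap e x q - hatMap e x p‖ + ‖q - p‖ / 2 := by
    field_simp
    ring
  have h8 : ‖q - p‖ ≤ 2 * κ * ‖hatMap e x q - hatMap e x p‖ := by linarith
  exact h8

theorem smooth_lh {F' : Type*} [NormedAddCommGroup F'] [NormedSpace ℝ F'] {e : M → F}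
    (hiso : ∀ x y, dist x y = ‖e x - e y‖)
    (he : ContMDiff 𝓘(ℝ, E) 𝓘(ℝ, F) 1 e) (hinj : ∀ x, Function.Injective (dm E e x))
    (h : M → F') (hh : ContMDiff 𝓘(ℝ, E) 𝓘(ℝ, F') 1 h) (x : M) : LH h x := by
  have : IsManifold 𝓘(ℝ, E) 1 M := isManifold_one
  have h1 : LH (hatMap (E₀ := E) h x) (extChartAt 𝓘(ℝ, E) x x) :=
    lh_of_contDiffAt (hatMap_contDiffAt h hh x _ (mem_extChartAt_target x))
  refine (h1.comp (chart_lh hiso he hinj x)).congr ?_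
  filter_upwards [(isOpen_extChartAt_source (I := 𝓘(ℝ, E)) x).mem_nhds
    (mem_extChartAt_source x)] with y hy
  show h ((extChartAt 𝓘(ℝ, E) x).symm (extChartAt 𝓘(ℝ, E) x y)) = h y
  rw [(extChartAt 𝓘(ℝ, E) x).left_inv hy]

theorem self_lh {e : M → F} (hiso : ∀ x y, dist x y = ‖e x - e y‖)
    (he : ContMDiff 𝓘(ℝ, E) 𝓘(ℝ, F) 1 e) (hinj : ∀ x, Function.Injective (dm E e x))
    (h : M → M) (hh : ContMDiff 𝓘(ℝ, E) 𝓘(ℝ, E) 1 h) (x : M) : LH h x := by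
  obtain ⟨C, α, hC, hα, s, hs, h1⟩ := smooth_lh hiso he hinj (e ∘ h) (he.comp hh) x
  refine ⟨C, α, hC, hα, s, hs, fun u hu v hv => ?_⟩
  have h2 := h1 u hu v hv
  rw [hiso (h u), ← dist_eq_norm]
  exact h2

theorem lh_of_holderInCharts {e : M → F} (hiso : ∀ x y, dist x y = ‖e x - e y‖)
    (he : ContMDiff 𝓘(ℝ, E) 𝓘(ℝ, F) 1 e) (hinj : ∀ x, Function.Injective (dm E e x))
    (φ : M → ℝ) (hφ : HolderInCharts E φ) (x : M) : LH φ x := by
  obtain ⟨C, α, hα, s, hs, h⟩ := hφ x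
  obtain ⟨C', β, hC', hβ, s', hs', h'⟩ := chart_lh hiso he hinj x
  refine ⟨|C| * C' ^ α, β * α, by positivity, by positivity, s ∩ s', inter_mem hs hs',
    fun u hu v hv => ?_⟩
  have h1 := h u hu.1 v hv.1
  have h2 := h' u hu.2 v hv.2
  rw [Real.dist_eq]
  rw [dist_eq_norm] at h2
  refine h1.trans ?_
  rw [Real.rpow_mul dist_nonneg, mul_assoc, ← Real.mul_rpow hC' (by positivity)]
  exact mul_le_mul (le_abs_self C) (Real.rpow_le_rpow (norm_nonneg _) h2 hα.le) (by positivity)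
    (abs_nonneg C)

theorem dg_det_comp (G G' : M → M) (hG : ContMDiff 𝓘(ℝ, E) 𝓘(ℝ, E) 1 G)
    (hG' : ContMDiff 𝓘(ℝ, E) 𝓘(ℝ, E) 1 G') (x : M) :
    (dg E (G' ∘ G) x).det = (dg E G' (G x)).det * (dg E G x).det := by
  have : IsManifold 𝓘(ℝ, E) 1 M := isManifold_one
  have h1 : dg E (G' ∘ G) x = (dg E G' (G x)).comp (dg E G x) := by
    ext v
    exact dg_comp G G' hG hG' x v
  rw [h1]
  exact LinearMap.det_comp _ _

theorem dg_id_det (x : M) : (dg E (id : M → M) x).det = 1 := by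
  have h1 : dg E (id : M → M) x = ContinuousLinearMap.id ℝ E := by
    show mfderiv 𝓘(ℝ, E) 𝓘(ℝ, E) id x = _
    rw [mfderiv_id]
    rfl
  rw [h1]
  exact LinearMap.det_id

theorem dg_det_ne (G G' : M → M) (hG : ContMDiff 𝓘(ℝ, E) 𝓘(ℝ, E) 1 G)
    (hG' : ContMDiff 𝓘(ℝ, E) 𝓘(ℝ, E) 1 G') (h : ∀ x, G' (G x) = x) (x : M) :
    (dg E G x).det ≠ 0 := by
  intro h0
  have h1 := dg_det_comp G G' hG hG' x
  have h2 : G' ∘ G = id := funext h
  rw [h2, dg_id_det, h0, mul_zero] at h1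
  exact one_ne_zero h1

theorem Jc_pos (b : Basis ι ℝ E) (e : M → F) (hinj : ∀ x, Function.Injective (dm E e x))
    (G : M → M) (x : M) (h : (dg E G x).det ≠ 0) : 0 < Jc b e G x := by
  have h1 := Gv_pos b e hinj (G x)
  have h2 := Gv_pos b e hinj x
  have h3 := abs_pos.mpr h
  unfold Jc
  positivity

theorem Jc_comp (b : Basis ι ℝ E) (e : M → F) (hinj : ∀ x, Function.Injective (dm E e x))
    (G G' : M → M) (hG : ContMDiff 𝓘(ℝ, E) 𝓘(ℝ, E) 1 G)
    (hG' : ContMDiff 𝓘(ℝ, E) 𝓘(ℝ, E) 1 G') (x : M) :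
    Jc b e (G' ∘ G) x = Jc b e G' (G x) * Jc b e G x := by
  have h1 := Gv_pos b e hinj (G x)
  have h2 := Gv_pos b e hinj x
  unfold Jc
  rw [dg_det_comp G G' hG hG', abs_mul]
  simp only [Function.comp_apply]
  field_simp

theorem Jc_iter (b : Basis ι ℝ E) (e : M → F) (hinj : ∀ x, Function.Injective (dm E e x))
    (f f' : M → M) (hf : ContMDiff 𝓘(ℝ, E) 𝓘(ℝ, E) 1 f) (hf' : ContMDiff 𝓘(ℝ, E) 𝓘(ℝ, E) 1 f')
    (h : ∀ x, f' (f x) = x) (n : ℕ) (x : M) :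
    Real.exp (bs f (fun p => Real.log (Jc b e f p)) n x) = Jc b e (f^[n]) x := by
  have : IsManifold 𝓘(ℝ, E) 1 M := isManifold_one
  induction n with
  | zero =>
    have h1 := Gv_pos b e hinj x
    have h2 : (dg E (f^[0]) x).det = 1 := dg_id_det x
    unfold Jc bs
    rw [h2]
    simp
    rw [div_self h1.ne']
  | succ n ih =>
    have h1 : bs f (fun p => Real.log (Jc b e f p)) (n + 1) x =
        bs f (fun p => Real.log (Jc b e f p)) n x + Real.log (Jc b e f (f^[n] x)) := by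
      unfold bs
      rw [Finset.sum_range_succ]
    rw [h1, Real.exp_add, ih, Real.exp_log (Jc_pos b e hinj f _ (dg_det_ne f f' hf hf' h _)),
      Function.iterate_succ', Jc_comp b e hinj _ _ (iter_smooth f hf n) hf, mul_comm]

theorem Jc_fixed (b : Basis ι ℝ E) (e : M → F) (hinj : ∀ x, Function.Injective (dm E e x))
    (G : M → M) (x : M) (hx : G x = x) : Jc b e G x = |(dg E G x).det| := by
  have h2 := Gv_pos b e hinj x
  unfold Jc
  rw [hx]
  field_simp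

theorem inCharts_eq (f : M → M) (x : M) : inCharts E f x = Tc (E := E) f x (f x) := rfl

/-- the logarithm of the Jacobian is locally Hölder -/
theorem logJc_lh (b : Basis ι ℝ E) {e : M → F} (hiso : ∀ x y, dist x y = ‖e x - e y‖)
    (he : ContMDiff 𝓘(ℝ, E) 𝓘(ℝ, F) ∞ e) (hinj : ∀ x, Function.Injective (dm E e x))
    (f f' : M → M) (hf : ContMDiff 𝓘(ℝ, E) 𝓘(ℝ, E) 1 f) (hf' : ContMDiff 𝓘(ℝ, E) 𝓘(ℝ, E) 1 f')
    (h : ∀ x, f' (f x) = x) (hJ : HolderJacobian E f) (x : M) :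
    LH (fun p => Real.log (Jc b e f p)) x := by
  have he1 : ContMDiff 𝓘(ℝ, E) 𝓘(ℝ, F) 1 e := he.of_le (by simp)
  set u₀ := extChartAt 𝓘(ℝ, E) x x with hu₀
  set T := Tc (E := E) f x (f x) with hT
  have hxs := mem_extChartAt_source (I := 𝓘(ℝ, E)) x
  have hys := mem_extChartAt_source (I := 𝓘(ℝ, E)) (f x)
  have hTc : ContDiffAt ℝ 1 T u₀ := Tc_mdiff f hf x (f x) x hxs hys
  have hTu : T u₀ = extChartAt 𝓘(ℝ, E) (f x) (f x) := by
    show extChartAt 𝓘(ℝ, E) (f x) (f ((extChartAt 𝓘(ℝ, E) x).symm (extChartAt 𝓘(ℝ, E) x x))) = _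
    rw [(extChartAt 𝓘(ℝ, E) x).left_inv hxs]
  have hTt : T u₀ ∈ (extChartAt 𝓘(ℝ, E) (f x)).target := by
    rw [hTu]; exact mem_extChartAt_target _
  -- the three terms
  have t1 : LH (fun u => Real.log (Gc b e (f x) (T u))) u₀ := by
    have h1 : LH (Gc b e (f x)) (T u₀) := lh_of_contDiffAt (Gc_contDiffAt b e he hinj _ _ hTt)
    have h2 : LH (fun u => Gc b e (f x) (T u)) u₀ := h1.comp (lh_of_contDiffAt hTc)
    exact h2.log (Gc_pos b e he1 hinj _ _ hTt).ne'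
  have hdet : (fderiv ℝ T u₀).det ≠ 0 := by
    intro h0
    have h1 := congrArg ContinuousLinearMap.det (Tc_fderiv f hf x (f x) x hxs hys)
    have e1 : ∀ A B : E →L[ℝ] E, (A.comp B).det = A.det * B.det := fun A B =>
      LinearMap.det_comp _ _
    rw [e1, e1, ← hT, ← hu₀, h0, zero_mul] at h1
    have h2 := chart_det_ne (E := E) (f x) (f x) hys
    have h3 := dg_det_ne f f' hf hf' h x
    exact mul_ne_zero h2 h3 h1.symm
  have t2 : LH (fun u => Real.log |(fderiv ℝ T u).det|) u₀ := by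
    obtain ⟨C, α, hα, s, hs, h1⟩ := hJ x
    have h2 : LH (fun u => |(fderiv ℝ T u).det|) u₀ := by
      refine ⟨|C|, α, abs_nonneg _, hα, s, hs, fun u hu v hv => ?_⟩
      rw [Real.dist_eq, dist_eq_norm]
      exact (h1 u hu v hv).trans (mul_le_mul_of_nonneg_right (le_abs_self _) (by positivity))
    exact h2.log (abs_ne_zero.mpr hdet)
  have t3 : LH (fun u => Real.log (Gc b e x u)) u₀ := by
    have h1 : LH (Gc b e x) u₀ :=
      lh_of_contDiffAt (Gc_contDiffAt b e he hinj _ _ (mem_extChartAt_target x))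
    exact h1.log (Gc_pos b e he1 hinj _ _ (mem_extChartAt_target x)).ne'
  have t4 := ((t1.add t2).add t3.neg).comp (chart_lh hiso he1 hinj x)
  refine t4.congr ?_
  have hc : ContinuousAt f x := hf.continuous.continuousAt
  filter_upwards [(isOpen_extChartAt_source (I := 𝓘(ℝ, E)) x).mem_nhds hxs,
    hc.preimage_mem_nhds ((isOpen_extChartAt_source (I := 𝓘(ℝ, E)) (f x)).mem_nhds hys)]
    with p hp hq
  have h1 := Jc_eq b e he1 hinj f hf x (f x) p hp hq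
  have h2 : Tc (E := E) f x (f x) (extChartAt 𝓘(ℝ, E) x p) = extChartAt 𝓘(ℝ, E) (f x) (f p) := by
    show extChartAt 𝓘(ℝ, E) (f x) (f ((extChartAt 𝓘(ℝ, E) x).symm (extChartAt 𝓘(ℝ, E) x p))) = _
    rw [(extChartAt 𝓘(ℝ, E) x).left_inv hp]
  have h3 : 0 < Gc b e (f x) (Tc (E := E) f x (f x) (extChartAt 𝓘(ℝ, E) x p)) := by
    rw [h2]
    exact Gc_pos b e he1 hinj _ _ ((extChartAt 𝓘(ℝ, E) (f x)).map_source hq)
  have h4 : 0 < Gc b e x (extChartAt 𝓘(ℝ, E) x p) :=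
    Gc_pos b e he1 hinj _ _ ((extChartAt 𝓘(ℝ, E) x).map_source hp)
  have h5 : |(fderiv ℝ (Tc (E := E) f x (f x)) (extChartAt 𝓘(ℝ, E) x p)).det| ≠ 0 := by
    intro h0
    have h6 := Jc_pos b e hinj f p (dg_det_ne f f' hf hf' h p)
    rw [h1, h0, mul_zero, zero_div] at h6
    exact lt_irrefl _ h6
  rw [h1, Real.log_div (mul_ne_zero h3.ne' h5) h4.ne', Real.log_mul h3.ne' h5, sub_eq_add_neg]
  rfl

/-- `C²` maps have a Hölder (in fact Lipschitz) Jacobian. -/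
theorem holderJacobian_of_c2 (f : M → M) (hf : ContMDiff 𝓘(ℝ, E) 𝓘(ℝ, E) 2 f) :
    HolderJacobian E f := by
  intro x
  have h1 : ContDiffAt ℝ 2 (inCharts E f x) (extChartAt 𝓘(ℝ, E) x x) := by
    rw [← contMDiffAt_iff_contDiffAt]
    have h2 : ContMDiffAt 𝓘(ℝ, E) 𝓘(ℝ, E) 2 (extChartAt 𝓘(ℝ, E) x).symm
        (extChartAt 𝓘(ℝ, E) x x) := by
      have h3 : ContMDiffOn 𝓘(ℝ, E) 𝓘(ℝ, E) ∞ (extChartAt 𝓘(ℝ, E) x).symm
        (extChartAt 𝓘(ℝ, E) x).target := contMDiffOn_extChartAt_symm x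
      exact (h3.contMDiffAt ((isOpen_extChartAt_target x).mem_nhds
        (mem_extChartAt_target x))).of_le (by norm_cast)
    have h3 : ContMDiffAt 𝓘(ℝ, E) 𝓘(ℝ, E) 2 (f ∘ (extChartAt 𝓘(ℝ, E) x).symm)
        (extChartAt 𝓘(ℝ, E) x x) := ContMDiffAt.comp _ hf.contMDiffAt h2
    have h4 : ContMDiffAt 𝓘(ℝ, E) 𝓘(ℝ, E) 2 (extChartAt 𝓘(ℝ, E) (f x))
        ((f ∘ (extChartAt 𝓘(ℝ, E) x).symm) (extChartAt 𝓘(ℝ, E) x x)) := by
      have e1 : (f ∘ (extChartAt 𝓘(ℝ, E) x).symm) (extChartAt 𝓘(ℝ, E) x x) = f x := by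
        show f ((extChartAt 𝓘(ℝ, E) x).symm (extChartAt 𝓘(ℝ, E) x x)) = f x
        rw [(extChartAt 𝓘(ℝ, E) x).left_inv (mem_extChartAt_source x)]
      rw [e1]
      exact (contMDiffAt_extChartAt (n := ∞)).of_le (by norm_cast)
    exact ContMDiffAt.comp _ h4 h3
  have h2 : ContDiffAt ℝ 1 (fderiv ℝ (inCharts E f x)) (extChartAt 𝓘(ℝ, E) x x) :=
    h1.fderiv_right (m := 1) (by norm_num)
  obtain ⟨C, α, hC, hα, s, hs, h3⟩ :=
    lh_of_contDiffAt (det_contDiffAt (Module.finBasis ℝ E) h2)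
  refine ⟨C, α, hα, s, hs, fun u hu v hv => ?_⟩
  have h4 := h3 u hu v hv
  rw [Real.dist_eq, dist_eq_norm] at h4
  exact (abs_abs_sub_abs_le _ _).trans h4

end metric

end Pool.Agent.W5h70.AJ
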