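import Pool.Agent.W5h70.AJ.Coord

set_option autoImplicit false
set_option linter.unusedSectionVars false

open scoped Manifold ContDiff Topology ENNReal
open Set Filter Module MeasureTheory Metric

namespace Pool.Agent.W5h70.AJ

open Pool.Agent.H721R2

section vol

variable {ι : Type*} [Fintype ι] [DecidableEq ι]
  {E : Type*} [NormedAddCommGroup E] [NormedSpace ℝ E] [FiniteDimensional ℝ E]
  [MeasurableSpace E] [BorelSpace E]
  {M : Type*} [TopologicalSpace M] [ChartedSpace E M] [IsManifold 𝓘(ℝ, E) ∞ M]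
  [MeasurableSpace M] [BorelSpace M]
  {F : Type*} [NormedAddCommGroup F] [InnerProductSpace ℝ F]

theorem measurableSet_pre (x : M) {s : Set M} (hs : MeasurableSet s) :
    MeasurableSet ((extChartAt 𝓘(ℝ, E) x).symm ⁻¹' s ∩ (extChartAt 𝓘(ℝ, E) x).target) := by
  have h1 : Continuous ((extChartAt 𝓘(ℝ, E) x).target.domRestrict (extChartAt 𝓘(ℝ, E) x).symm) :=
    (continuousOn_extChartAt_symm x).domRestrict
  have h2 := (isOpen_extChartAt_target (I := 𝓘(ℝ, E)) x).measurableSet.subtype_image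
    (h1.measurable hs)
  convert h2 using 1
  ext y
  constructor
  · rintro ⟨h3, h4⟩
    exact ⟨⟨y, h4⟩, h3, rfl⟩
  · rintro ⟨⟨z, hz⟩, h3, h4⟩
    have h5 : z = y := h4
    subst h5
    exact ⟨h3, hz⟩

/-- Lebesgue measure of a ball in the chart at `x`, transported to `M` -/
noncomputable def locM (E : Type*) [NormedAddCommGroup E] [NormedSpace ℝ E]
    [FiniteDimensional ℝ E] [MeasurableSpace E] [BorelSpace E]
    {M : Type*} [TopologicalSpace M] [ChartedSpace E M] [MeasurableSpace M] (x : M) (r : ℝ) :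
    Measure M :=
  Measure.map (extChartAt 𝓘(ℝ, E) x).symm
    ((Measure.addHaar : Measure E).restrict (ball (extChartAt 𝓘(ℝ, E) x x) r))

/-- the chart ball -/
def cb (E : Type*) [NormedAddCommGroup E] [NormedSpace ℝ E]
    {M : Type*} [TopologicalSpace M] [ChartedSpace E M] (x : M) (r : ℝ) : Set M :=
  (extChartAt 𝓘(ℝ, E) x).source ∩ (extChartAt 𝓘(ℝ, E) x) ⁻¹' (ball (extChartAt 𝓘(ℝ, E) x x) r)

theorem cb_open (x : M) (r : ℝ) : IsOpen (cb E x r) :=
  (continuousOn_extChartAt x).isOpen_inter_preimage (isOpen_extChartAt_source x) isOpen_ball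

theorem mem_cb (x : M) {r : ℝ} (hr : 0 < r) : x ∈ cb E x r :=
  ⟨mem_extChartAt_source x, mem_ball_self hr⟩

theorem locM_finite (x : M) (r : ℝ) : IsFiniteMeasure (locM E x r) := by
  have : IsFiniteMeasure ((Measure.addHaar : Measure E).restrict
      (ball (extChartAt 𝓘(ℝ, E) x x) r)) := by
    have : ProperSpace E := FiniteDimensional.proper ℝ E
    exact ⟨by rw [Measure.restrict_apply_univ]; exact measure_ball_lt_top⟩
  unfold locM
  infer_instance

theorem locM_aem (x : M) {r : ℝ}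
    (hr : ball (extChartAt 𝓘(ℝ, E) x x) r ⊆ (extChartAt 𝓘(ℝ, E) x).target) :
    AEMeasurable (extChartAt 𝓘(ℝ, E) x).symm
      ((Measure.addHaar : Measure E).restrict (ball (extChartAt 𝓘(ℝ, E) x x) r)) :=
  ((continuousOn_extChartAt_symm x).mono hr).aemeasurable measurableSet_ball

/-- one piece of the change of variables -/
theorem piece (h : M → M) (hh : ContMDiff 𝓘(ℝ, E) 𝓘(ℝ, E) 1 h) (hinj : Function.Injective h)
    (x y : M) {r r' : ℝ} (hr : ball (extChartAt 𝓘(ℝ, E) x x) r ⊆ (extChartAt 𝓘(ℝ, E) x).target)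
    (hr' : ball (extChartAt 𝓘(ℝ, E) y y) r' ⊆ (extChartAt 𝓘(ℝ, E) y).target)
    (B : Set M) (hB : MeasurableSet B) :
    MeasurableSet (ball (extChartAt 𝓘(ℝ, E) x x) r ∩
      (extChartAt 𝓘(ℝ, E) x).symm ⁻¹' (B ∩ h ⁻¹' cb E y r')) ∧
    ∫⁻ u in ball (extChartAt 𝓘(ℝ, E) x x) r ∩
      (extChartAt 𝓘(ℝ, E) x).symm ⁻¹' (B ∩ h ⁻¹' cb E y r'),
      ENNReal.ofReal |(fderiv ℝ (Tc (E := E) h x y) u).det| ∂Measure.addHaar ≤
      locM E y r' (h '' B) := by
  set A := ball (extChartAt 𝓘(ℝ, E) x x) r ∩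
      (extChartAt 𝓘(ℝ, E) x).symm ⁻¹' (B ∩ h ⁻¹' cb E y r') with hA
  have hAm : MeasurableSet A := by
    have h1 := measurableSet_pre (E := E) x
      (hB.inter ((cb_open (E := E) y r').preimage hh.continuous).measurableSet)
    have h2 : A = ball (extChartAt 𝓘(ℝ, E) x x) r ∩ ((extChartAt 𝓘(ℝ, E) x).symm ⁻¹'
        (B ∩ h ⁻¹' cb E y r') ∩ (extChartAt 𝓘(ℝ, E) x).target) := by
      ext u
      constructor
      · rintro ⟨h3, h4⟩; exact ⟨h3, h4, hr h3⟩
      · rintro ⟨h3, h4, -⟩; exact ⟨h3, h4⟩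
    rw [h2]
    exact measurableSet_ball.inter h1
  refine ⟨hAm, ?_⟩
  have hsrc : ∀ u ∈ A, (extChartAt 𝓘(ℝ, E) x).symm u ∈ (extChartAt 𝓘(ℝ, E) x).source ∧
      extChartAt 𝓘(ℝ, E) x ((extChartAt 𝓘(ℝ, E) x).symm u) = u := fun u hu =>
    ⟨(extChartAt 𝓘(ℝ, E) x).map_target (hr hu.1), (extChartAt 𝓘(ℝ, E) x).right_inv (hr hu.1)⟩
  rw [lintegral_abs_det_fderiv_eq_addHaar_image Measure.addHaar hAm
    (f := Tc (E := E) h x y) (f' := fun u => fderiv ℝ (Tc (E := E) h x y) u)]
  · unfold locM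
    refine le_trans ?_ (Measure.le_map_apply (locM_aem (E := E) y hr') _)
    rw [Measure.restrict_apply' measurableSet_ball]
    refine measure_mono ?_
    rintro _ ⟨u, hu, rfl⟩
    have h1 : Tc (E := E) h x y u = extChartAt 𝓘(ℝ, E) y (h ((extChartAt 𝓘(ℝ, E) x).symm u)) := rfl
    have h2 : h ((extChartAt 𝓘(ℝ, E) x).symm u) ∈ cb E y r' := hu.2.2
    refine ⟨?_, ?_⟩
    · show (extChartAt 𝓘(ℝ, E) y).symm (Tc (E := E) h x y u) ∈ h '' B
      rw [h1, (extChartAt 𝓘(ℝ, E) y).left_inv h2.1]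
      exact mem_image_of_mem _ hu.2.1
    · rw [h1]; exact h2.2
  · intro u hu
    obtain ⟨h1, h2⟩ := hsrc u hu
    have h3 := Tc_mdiff h hh x y _ h1 hu.2.2.1
    rw [h2] at h3
    exact (h3.differentiableAt (by norm_num)).hasFDerivAt.hasFDerivWithinAt
  · intro u hu v hv huv
    have h1 : extChartAt 𝓘(ℝ, E) y (h ((extChartAt 𝓘(ℝ, E) x).symm u)) =
      extChartAt 𝓘(ℝ, E) y (h ((extChartAt 𝓘(ℝ, E) x).symm v)) := huv
    have h2 := hinj ((extChartAt 𝓘(ℝ, E) y).injOn hu.2.2.1 hv.2.2.1 h1)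
    have h3 := congrArg (extChartAt 𝓘(ℝ, E) x) h2
    rwa [(hsrc u hu).2, (hsrc v hv).2] at h3

theorem exists_measure [CompactSpace M] (b : Basis ι ℝ E) (e : M → F)
    (he : ContMDiff 𝓘(ℝ, E) 𝓘(ℝ, F) ∞ e) (hinj : ∀ x, Function.Injective (dm E e x)) :
    ∃ ν : Measure M, IsFiniteMeasure ν ∧ (∀ U : Set M, IsOpen U → U.Nonempty → ν U ≠ 0) ∧
      ∃ κ : ℝ≥0∞, κ ≠ 0 ∧ ∀ h : M → M, ContMDiff 𝓘(ℝ, E) 𝓘(ℝ, E) 1 h → Function.Injective h →
        ∀ B, MeasurableSet B →
          κ * ∫⁻ p in B, ENNReal.ofReal (Jc b e h p) ∂ν ≤ ν (h '' B) := by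
  have hprop : ProperSpace E := FiniteDimensional.proper ℝ E
  have he1 : ContMDiff 𝓘(ℝ, E) 𝓘(ℝ, F) 1 e := he.of_le (by simp)
  have hloc : ∀ x : M, ∃ r > 0, ball (extChartAt 𝓘(ℝ, E) x x) r ⊆ (extChartAt 𝓘(ℝ, E) x).target ∧
      ∃ c C : ℝ, 0 < c ∧ 0 < C ∧ ∀ u ∈ ball (extChartAt 𝓘(ℝ, E) x x) r,
        c ≤ Gc b e x u ∧ Gc b e x u ≤ C := by
    intro x
    obtain ⟨r, hr, h1⟩ := Metric.isOpen_iff.mp (isOpen_extChartAt_target (I := 𝓘(ℝ, E)) x)
      _ (mem_extChartAt_target x)
    have h2 : closedBall (extChartAt 𝓘(ℝ, E) x x) (r / 2) ⊆ (extChartAt 𝓘(ℝ, E) x).target :=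
      (closedBall_subset_ball (by linarith)).trans h1
    have hK : IsCompact (closedBall (extChartAt 𝓘(ℝ, E) x x) (r / 2)) := isCompact_closedBall _ _
    have hne : (closedBall (extChartAt 𝓘(ℝ, E) x x) (r / 2)).Nonempty :=
      ⟨_, mem_closedBall_self (by linarith)⟩
    have hcont : ContinuousOn (Gc b e x) (closedBall (extChartAt 𝓘(ℝ, E) x x) (r / 2)) :=
      fun u hu => (Gc_contDiffAt b e he hinj x u (h2 hu)).continuousAt.continuousWithinAt
    obtain ⟨u1, hu1, h3⟩ := hK.exists_isMinOn hne hcont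
    obtain ⟨u2, hu2, h4⟩ := hK.exists_isMaxOn hne hcont
    refine ⟨r / 2, by linarith, ball_subset_closedBall.trans h2, Gc b e x u1, Gc b e x u2,
      Gc_pos b e he1 hinj x u1 (h2 hu1), Gc_pos b e he1 hinj x u2 (h2 hu2), fun u hu => ?_⟩
    exact ⟨h3 (ball_subset_closedBall hu), h4 (ball_subset_closedBall hu)⟩
  choose r hr0 hrt c C hc hC hcC using hloc
  obtain ⟨t, ht⟩ := isCompact_univ.elim_finite_subcover (fun x : M => cb E x (r x))
    (fun x => cb_open x (r x)) (fun x _ => mem_iUnion.mpr ⟨x, mem_cb x (hr0 x)⟩)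
  set ν : Measure M := ∑ x ∈ t, locM E x (r x) with hν
  have hfin : ∀ x, IsFiniteMeasure (locM E x (r x)) := fun x => locM_finite x (r x)
  have hνap : ∀ s, ν s = ∑ x ∈ t, locM E x (r x) s := fun s => by
    rw [hν, Measure.finsetSum_apply]
  set K : ℝ := ∑ y ∈ t, ∑ x ∈ t, C y / c x with hK
  have hK1 : ∀ y ∈ t, ∀ x ∈ t, C y / c x ≤ K := by
    intro y hy x hx
    have h0 : ∀ y x, 0 ≤ C y / c x := fun y x => (div_pos (hC y) (hc x)).le
    have h1 : C y / c x ≤ ∑ x ∈ t, C y / c x :=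
      Finset.single_le_sum (f := fun x => C y / c x) (fun x _ => h0 y x) hx
    have h2 : ∑ x ∈ t, C y / c x ≤ K :=
      Finset.single_le_sum (f := fun y => ∑ x ∈ t, C y / c x)
        (fun y _ => Finset.sum_nonneg fun x _ => h0 y x) hy
    exact h1.trans h2
  refine ⟨ν, ⟨?_⟩, ?_, ((t.card : ℝ≥0∞) * ENNReal.ofReal K + 1)⁻¹, ?_, ?_⟩
  · rw [hνap]
    exact ENNReal.sum_lt_top.mpr fun x _ => measure_lt_top _ _
  · rintro U hU ⟨p, hp⟩ h0
    have h1 := ht (mem_univ p)
    simp only [mem_iUnion, exists_prop] at h1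
    obtain ⟨x, hx, hpx⟩ := h1
    rw [hνap, Finset.sum_eq_zero_iff] at h0
    have h2 := h0 x hx
    have hle := Measure.le_map_apply (locM_aem (E := E) x (hrt x)) U
    have h3 : (Measure.map (extChartAt 𝓘(ℝ, E) x).symm
      ((Measure.addHaar : Measure E).restrict (ball (extChartAt 𝓘(ℝ, E) x x) (r x)))) U = 0 := h2
    rw [h3, nonpos_iff_eq_zero, Measure.restrict_apply' measurableSet_ball] at hle
    have hop : IsOpen (((extChartAt 𝓘(ℝ, E) x).target ∩ (extChartAt 𝓘(ℝ, E) x).symm ⁻¹' U) ∩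
        ball (extChartAt 𝓘(ℝ, E) x x) (r x)) :=
      ((continuousOn_extChartAt_symm x).isOpen_inter_preimage
        (isOpen_extChartAt_target x) hU).inter isOpen_ball
    have hmem : extChartAt 𝓘(ℝ, E) x p ∈ ((extChartAt 𝓘(ℝ, E) x).target ∩
        (extChartAt 𝓘(ℝ, E) x).symm ⁻¹' U) ∩ ball (extChartAt 𝓘(ℝ, E) x x) (r x) := by
      refine ⟨⟨(extChartAt 𝓘(ℝ, E) x).map_source hpx.1, ?_⟩, hpx.2⟩
      rw [mem_preimage, (extChartAt 𝓘(ℝ, E) x).left_inv hpx.1]
      exact hp
    have h4 := hop.measure_pos (Measure.addHaar : Measure E) ⟨_, hmem⟩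
    refine h4.ne' (measure_mono_null ?_ hle)
    rintro u ⟨⟨-, h5⟩, h6⟩
    exact ⟨h5, h6⟩
  · exact ENNReal.inv_ne_zero.mpr (ENNReal.add_ne_top.mpr
      ⟨ENNReal.mul_ne_top (ENNReal.natCast_ne_top _) ENNReal.ofReal_ne_top, ENNReal.one_ne_top⟩)
  · intro h hh hhi B hB
    -- each piece
    have hpc : ∀ x ∈ t, ∫⁻ p in B, ENNReal.ofReal (Jc b e h p) ∂(locM E x (r x)) ≤
        ENNReal.ofReal K * ν (h '' B) := by
      intro x hx
      rw [← lintegral_indicator hB]
      refine (lintegral_map_le _ _).trans ?_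
      have hmeas : ∀ y : M, Measurable fun u : E =>
          ENNReal.ofReal |(fderiv ℝ (Tc (E := E) h x y) u).det| := by
        intro y
        have h1 : Measurable fun u : E => (fderiv ℝ (Tc (E := E) h x y) u).det :=
          (ContinuousLinearMap.continuous_det (𝕜 := ℝ) (E := E)).measurable.comp
            (measurable_fderiv ℝ (Tc (E := E) h x y))
        exact ENNReal.measurable_ofReal.comp (measurable_norm.comp h1)
      let A : M → Set E := fun y => ball (extChartAt 𝓘(ℝ, E) x x) (r x) ∩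
        (extChartAt 𝓘(ℝ, E) x).symm ⁻¹' (B ∩ h ⁻¹' cb E y (r y))
      have hA : ∀ y, MeasurableSet (A y) := fun y =>
        (piece h hh hhi x y (hrt x) (hrt y) B hB).1
      calc ∫⁻ u in ball (extChartAt 𝓘(ℝ, E) x x) (r x),
            B.indicator (fun p => ENNReal.ofReal (Jc b e h p)) ((extChartAt 𝓘(ℝ, E) x).symm u)
              ∂Measure.addHaar
          ≤ ∫⁻ u in ball (extChartAt 𝓘(ℝ, E) x x) (r x), ∑ y ∈ t, (A y).indicator (fun u =>
              ENNReal.ofReal K * ENNReal.ofReal |(fderiv ℝ (Tc (E := E) h x y) u).det|) u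
              ∂Measure.addHaar := by
            refine setLIntegral_mono' measurableSet_ball fun u hu => ?_
            by_cases hB' : (extChartAt 𝓘(ℝ, E) x).symm u ∈ B
            · rw [indicator_of_mem hB']
              have h1 := ht (mem_univ (h ((extChartAt 𝓘(ℝ, E) x).symm u)))
              simp only [mem_iUnion, exists_prop] at h1
              obtain ⟨y, hy, hpy⟩ := h1
              refine le_trans ?_ (Finset.single_le_sum (f := fun y => (A y).indicator (fun u =>
                ENNReal.ofReal K * ENNReal.ofReal |(fderiv ℝ (Tc (E := E) h x y) u).det|) u)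
                (fun _ _ => zero_le) hy)
              have huA : u ∈ A y := ⟨hu, hB', hpy⟩
              show _ ≤ (A y).indicator (fun u =>
                ENNReal.ofReal K * ENNReal.ofReal |(fderiv ℝ (Tc (E := E) h x y) u).det|) u
              rw [indicator_of_mem huA, ← ENNReal.ofReal_mul' (abs_nonneg _)]
              apply ENNReal.ofReal_le_ofReal
              have hus := (extChartAt 𝓘(ℝ, E) x).map_target (hrt x hu)
              have huu := (extChartAt 𝓘(ℝ, E) x).right_inv (hrt x hu)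
              have h2 := Jc_eq b e he1 hinj h hh x y _ hus hpy.1
              rw [huu] at h2
              rw [h2, mul_div_right_comm]
              apply mul_le_mul_of_nonneg_right _ (abs_nonneg _)
              refine le_trans ?_ (hK1 y hy x hx)
              have h3 := (hcC y _ hpy.2).2
              have h4 := (hcC x u hu).1
              exact div_le_div₀ (hC y).le h3 (hc x) h4
            · rw [indicator_of_notMem hB']
              exact zero_le
        _ = ∑ y ∈ t, ∫⁻ u in ball (extChartAt 𝓘(ℝ, E) x x) (r x), (A y).indicator (fun u =>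
              ENNReal.ofReal K * ENNReal.ofReal |(fderiv ℝ (Tc (E := E) h x y) u).det|) u
              ∂Measure.addHaar :=
            lintegral_finsetSum _ fun y _ => ((hmeas y).const_mul _).indicator (hA y)
        _ ≤ ∑ y ∈ t, ENNReal.ofReal K * locM E y (r y) (h '' B) := by
            refine Finset.sum_le_sum fun y _ => ?_
            calc _ ≤ ∫⁻ u, (A y).indicator (fun u => ENNReal.ofReal K *
                    ENNReal.ofReal |(fderiv ℝ (Tc (E := E) h x y) u).det|) u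
                    ∂Measure.addHaar := setLIntegral_le_lintegral _ _
              _ = ENNReal.ofReal K * ∫⁻ u in A y,
                    ENNReal.ofReal |(fderiv ℝ (Tc (E := E) h x y) u).det| ∂Measure.addHaar := by
                  rw [lintegral_indicator (hA y), lintegral_const_mul _ (hmeas y)]
              _ ≤ _ := mul_le_mul_right (piece h hh hhi x y (hrt x) (hrt y) B hB).2 _
        _ = ENNReal.ofReal K * ν (h '' B) := by rw [hνap, Finset.mul_sum]
    have hsum : ∫⁻ p in B, ENNReal.ofReal (Jc b e h p) ∂ν ≤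
        ((t.card : ℝ≥0∞) * ENNReal.ofReal K + 1) * ν (h '' B) := by
      rw [← lintegral_indicator hB, hν, lintegral_finsetSum_measure]
      have h1 : ∀ x ∈ t, ∫⁻ p, B.indicator (fun p => ENNReal.ofReal (Jc b e h p)) p
          ∂(locM E x (r x)) ≤ ENNReal.ofReal K * ν (h '' B) := by
        intro x hx
        rw [lintegral_indicator hB]
        exact hpc x hx
      refine (Finset.sum_le_sum h1).trans ?_
      rw [Finset.sum_const, nsmul_eq_mul, ← mul_assoc]
      exact mul_le_mul_left le_self_add _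
    have hne0 : (t.card : ℝ≥0∞) * ENNReal.ofReal K + 1 ≠ 0 := by simp
    have hnet : (t.card : ℝ≥0∞) * ENNReal.ofReal K + 1 ≠ ⊤ := ENNReal.add_ne_top.mpr
      ⟨ENNReal.mul_ne_top (ENNReal.natCast_ne_top _) ENNReal.ofReal_ne_top, ENNReal.one_ne_top⟩
    refine (mul_le_mul_right hsum _).trans ?_
    rw [← mul_assoc, ENNReal.inv_mul_cancel hne0 hnet, one_mul]

end vol

end Pool.Agent.W5h70.AJ
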