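import Pool.Agent.W5h70.AJ.Trap
import Pool.Agent.W5h70.AJ.Vol
import Pool.Agent.W5h70.AJ.Jac
import Pool.Agent.H789R2.AN.Man

set_option autoImplicit false
set_option linter.unusedSectionVars false

open scoped Manifold ContDiff Topology ENNReal
open Set Filter Module MeasureTheory Metric

namespace Pool.Agent.W5h70.AJ

open Pool.Agent.H721R2 Pool.Agent.H789R2.AN

theorem bs_iter {X : Type*} (g : X → X) (φ : X → ℝ) (n P : ℕ) (p : X) :
    bs (g^[n]) (bs g φ n) P p = bs g φ (n * P) p := by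
  induction P with
  | zero => simp [bs]
  | succ P ih =>
    have h1 : bs (g^[n]) (bs g φ n) (P + 1) p =
        bs (g^[n]) (bs g φ n) P p + bs g φ n ((g^[n])^[P] p) := by
      conv_lhs => unfold bs
      rw [Finset.sum_range_succ]
      rfl
    rw [h1, ih, Nat.mul_succ, bs_add, Function.iterate_mul]

section sys

variable {E₀ : Type*} [NormedAddCommGroup E₀] [NormedSpace ℝ E₀] [FiniteDimensional ℝ E₀]
  {M : Type*} [MetricSpace M] [CompactSpace M] [ChartedSpace E₀ M] [IsManifold 𝓘(ℝ, E₀) 1 M]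
  {F : Type*} [NormedAddCommGroup F] [NormedSpace ℝ F]

theorem exists_sys1 {e : M → F} (hiso : ∀ x y, dist x y = ‖e x - e y‖)
    (he : ContMDiff 𝓘(ℝ, E₀) 𝓘(ℝ, F) 1 e) (hinj : ∀ x, Function.Injective (dm E₀ e x))
    (f : Diffeomorph 𝓘(ℝ, E₀) 𝓘(ℝ, E₀) M M 1)
    (Es Eu : ∀ x : M, Submodule ℝ (TangentSpace 𝓘(ℝ, E₀) x)) (h : IsAnosov f Es Eu) :
    ∃ (n : ℕ) (S : HypSys M F), 1 ≤ n ∧ S.g = iterHomeo f.toHomeomorph n := by
  obtain ⟨C, a, b, Ls, Lu, hE⟩ := eanosov_of_isAnosov e he hinj f Es Eu h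
  obtain ⟨K, hK, hang⟩ := hE.angle he hinj
  have t1 : Tendsto (fun n : ℕ => K * (C * a ^ n)) atTop (𝓝 0) := by
    have := ((tendsto_pow_atTop_nhds_zero_of_lt_one hE.a_pos.le hE.a_lt).const_mul C).const_mul K
    simpa using this
  have t2 : Tendsto (fun n : ℕ => K * (C * b ^ n)) atTop (𝓝 0) := by
    have := ((tendsto_pow_atTop_nhds_zero_of_lt_one hE.b_pos.le hE.b_lt).const_mul C).const_mul K
    simpa using this
  obtain ⟨n, ⟨h1, h2⟩, h3⟩ := ((((tendsto_order.mp t1).2 (1 / 16) (by norm_num)).and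
    ((tendsto_order.mp t2).2 (1 / 16) (by norm_num))).and (eventually_ge_atTop 1)).exists
  obtain ⟨S, hS, -⟩ := exists_hypSys' hiso he hinj hE K hK hang n h1.le h2.le
  exact ⟨n, S, h3, hS⟩

end sys

section core

variable {E : Type*} [NormedAddCommGroup E] [NormedSpace ℝ E] [FiniteDimensional ℝ E]
  {M : Type*} [MetricSpace M] [CompactSpace M] [ConnectedSpace M] [ChartedSpace E M]
  [IsManifold 𝓘(ℝ, E) ∞ M] [MeasurableSpace M] [BorelSpace M]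
  {F : Type*} [NormedAddCommGroup F] [InnerProductSpace ℝ F]

theorem lh_bs {f : M → M} (hf : ∀ n x, LH (f^[n]) x) {φ : M → ℝ} (hφ : ∀ x, LH φ x) (n : ℕ)
    (x : M) : LH (bs f φ n) x := by
  induction n with
  | zero =>
    refine lh_of_lipschitz 0 univ univ_mem fun u _ v _ => ?_
    simp [bs]
  | succ n ih =>
    have h1 : bs f φ (n + 1) = fun x => bs f φ n x + (φ ∘ f^[n]) x := by
      funext x
      unfold bs
      rw [Finset.sum_range_succ]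
      rfl
    rw [h1]
    exact ih.add ((hφ _).comp (hf n x))

theorem core_sys {e : M → F} (hiso : ∀ x y, dist x y = ‖e x - e y‖)
    (he : ContMDiff 𝓘(ℝ, E) 𝓘(ℝ, F) ∞ e) (hinj : ∀ x, Function.Injective (dm E e x))
    (f : Diffeomorph 𝓘(ℝ, E) 𝓘(ℝ, E) M M 1)
    (Es Eu : ∀ x : M, Submodule ℝ (TangentSpace 𝓘(ℝ, E) x)) (hA : IsAnosov f Es Eu)
    (φ : M → ℝ) (hφ : ∀ x, LH φ x)
    (ν : Measure M) [IsFiniteMeasure ν] (hpos : ∀ U : Set M, IsOpen U → U.Nonempty → ν U ≠ 0)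
    (κ : ℝ≥0∞) (hκ : κ ≠ 0) (hQ : ∀ (n : ℕ) (B : Set M), MeasurableSet B →
      κ * ∫⁻ x in B, ENNReal.ofReal (Real.exp (bs f φ n x)) ∂ν ≤ ν (f^[n] '' B)) :
    ∃ (n : ℕ) (S : HypSys M F), 1 ≤ n ∧ (S.g : M → M) = f^[n] ∧
      ∀ U : Set M, IsOpen U → U.Nonempty → closure (f^[n] '' U) ⊆ U →
        (∀ P : ℕ, 0 < P → ∀ p ∈ U, f^[P] p = p → 0 ≤ bs f φ P p) → U = univ := by
  have : IsManifold 𝓘(ℝ, E) 1 M := isManifold_one
  have he1 : ContMDiff 𝓘(ℝ, E) 𝓘(ℝ, F) 1 e := he.of_le (by simp)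
  obtain ⟨n, S, hn, hg⟩ := exists_sys1 hiso he1 hinj f Es Eu hA
  have hgf : (S.g : M → M) = f^[n] := by
    rw [hg]; rfl
  have hfl : ∀ n x, LH ((f : M → M)^[n]) x := fun n x =>
    self_lh hiso he1 hinj _ (iter_smooth f f.contMDiff n) x
  obtain ⟨C, α, r, hC, hα, hr, hHol⟩ := lh_uniform (lh_bs hfl hφ n)
  refine ⟨n, S, hn, hgf, fun U hUo hUn hU hper => ?_⟩
  refine trap_univ S (bs f φ n) C α r hα hC hr (fun x y hxy => ?_) ν hpos κ hκ ?_ U hUo hUn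
    (by rw [hgf]; exact hU) ?_
  · have := hHol x y hxy
    rwa [Real.dist_eq] at this
  · intro m B hB
    have h1 := hQ (n * m) B hB
    rw [hgf]
    simp only [bs_iter]
    rw [← Function.iterate_mul]
    exact h1
  · intro P hP p hp hpp
    rw [hgf] at hpp ⊢
    rw [bs_iter]
    rw [← Function.iterate_mul] at hpp
    exact hper (n * P) (by positivity) p hp hpp

theorem core_trap {e : M → F} (hiso : ∀ x y, dist x y = ‖e x - e y‖)
    (he : ContMDiff 𝓘(ℝ, E) 𝓘(ℝ, F) ∞ e) (hinj : ∀ x, Function.Injective (dm E e x))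
    (f : Diffeomorph 𝓘(ℝ, E) 𝓘(ℝ, E) M M 1)
    (Es Eu : ∀ x : M, Submodule ℝ (TangentSpace 𝓘(ℝ, E) x)) (hA : IsAnosov f Es Eu)
    (φ : M → ℝ) (hφ : ∀ x, LH φ x)
    (ν : Measure M) [IsFiniteMeasure ν] (hpos : ∀ U : Set M, IsOpen U → U.Nonempty → ν U ≠ 0)
    (κ : ℝ≥0∞) (hκ : κ ≠ 0) (hQ : ∀ (n : ℕ) (B : Set M), MeasurableSet B →
      κ * ∫⁻ x in B, ENNReal.ofReal (Real.exp (bs f φ n x)) ∂ν ≤ ν (f^[n] '' B))
    (U : Set M) (hUo : IsOpen U) (hUn : U.Nonempty) (hU : closure (f '' U) ⊆ U)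
    (hper : ∀ P : ℕ, 0 < P → ∀ p ∈ U, f^[P] p = p → 0 ≤ bs f φ P p) : U = univ := by
  obtain ⟨n, S, hn, hgf, h⟩ := core_sys hiso he hinj f Es Eu hA φ hφ ν hpos κ hκ hQ
  refine h U hUo hUn (Subset.trans (closure_mono ?_) hU) hper
  obtain ⟨m, rfl⟩ : ∃ m, n = m + 1 := ⟨n - 1, by omega⟩
  rintro _ ⟨x, hx, rfl⟩
  have h1 : ∀ m : ℕ, ∀ x ∈ U, f^[m] x ∈ U := by
    intro m x hx
    induction m with
    | zero => exact hx
    | succ m ih =>
      rw [Function.iterate_succ_apply']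
      exact hU (subset_closure (mem_image_of_mem _ ih))
  rw [Function.iterate_succ_apply']
  exact mem_image_of_mem _ (h1 m x hx)

theorem core_trans {e : M → F} (hiso : ∀ x y, dist x y = ‖e x - e y‖)
    (he : ContMDiff 𝓘(ℝ, E) 𝓘(ℝ, F) ∞ e) (hinj : ∀ x, Function.Injective (dm E e x))
    (f : Diffeomorph 𝓘(ℝ, E) 𝓘(ℝ, E) M M 1)
    (Es Eu : ∀ x : M, Submodule ℝ (TangentSpace 𝓘(ℝ, E) x)) (hA : IsAnosov f Es Eu)
    (φ : M → ℝ) (hφ : ∀ x, LH φ x)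
    (ν : Measure M) [IsFiniteMeasure ν] (hpos : ∀ U : Set M, IsOpen U → U.Nonempty → ν U ≠ 0)
    (κ : ℝ≥0∞) (hκ : κ ≠ 0) (hQ : ∀ (n : ℕ) (B : Set M), MeasurableSet B →
      κ * ∫⁻ x in B, ENNReal.ofReal (Real.exp (bs f φ n x)) ∂ν ≤ ν (f^[n] '' B))
    (hper : ∀ P : ℕ, 0 < P → ∀ p, f^[P] p = p → 0 ≤ bs f φ P p) : TopTransitive f := by
  obtain ⟨n, S, hn, hgf, h⟩ := core_sys hiso he hinj f Es Eu hA φ hφ ν hpos κ hκ hQ
  intro U V hU hUn hV hVn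
  obtain ⟨k, hk⟩ := transitive_of_trap S (fun W hWo hWn hW =>
    h W hWo hWn (by rw [← hgf]; exact hW) (fun P hP p _ hp => hper P hP p hp)) U V hU hUn hV hVn
  refine ⟨n * k, ?_⟩
  rwa [hgf, ← Function.iterate_mul] at hk

end core

end Pool.Agent.W5h70.AJ
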