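import Mathlib

set_option autoImplicit false

open scoped Topology RealInnerProductSpace
open Set Filter Module

namespace Pool.Agent.W5h70.AJ

variable {ι E F G : Type*} [Fintype ι] [DecidableEq ι] [NormedAddCommGroup E] [NormedSpace ℝ E]
  [NormedAddCommGroup F] [InnerProductSpace ℝ F] [NormedAddCommGroup G] [NormedSpace ℝ G]

/-- Gram determinant of a linear map, in the basis `b`. -/
noncomputable def gd (b : Basis ι ℝ E) (L : E →L[ℝ] F) : ℝ :=
  (Matrix.gram ℝ (fun i => L (b i))).det

theorem gd_comp (b : Basis ι ℝ E) (L : E →L[ℝ] F) (A : E →L[ℝ] E) :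
    gd b (L.comp A) = A.det ^ 2 * gd b L := by
  have h : Matrix.gram ℝ (fun i => (L.comp A) (b i)) =
      (LinearMap.toMatrix b b (A : E →ₗ[ℝ] E)).transpose * (Matrix.gram ℝ (fun i => L (b i))) *
        (LinearMap.toMatrix b b (A : E →ₗ[ℝ] E)) := by
    ext i j
    have h1 : ∀ i, A (b i) = ∑ k, (LinearMap.toMatrix b b (A : E →ₗ[ℝ] E)) k i • b k := by
      intro i
      simp only [LinearMap.toMatrix_apply]
      exact (b.sum_repr (A (b i))).symm
    have h2 : ⟪L (A (b i)), L (A (b j))⟫ = ∑ l, ∑ k,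
        (LinearMap.toMatrix b b (A : E →ₗ[ℝ] E)) l j *
        ((LinearMap.toMatrix b b (A : E →ₗ[ℝ] E)) k i * ⟪L (b k), L (b l)⟫) := by
      rw [h1 j, map_sum, inner_sum]
      refine Finset.sum_congr rfl fun l _ => ?_
      rw [map_smul, inner_smul_right, h1 i, map_sum, sum_inner, Finset.mul_sum]
      refine Finset.sum_congr rfl fun k _ => ?_
      rw [map_smul, real_inner_smul_left]
    simp only [Matrix.gram_apply, Matrix.mul_apply, Matrix.transpose_apply,
      ContinuousLinearMap.comp_apply]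
    rw [h2]
    refine Finset.sum_congr rfl fun l _ => ?_
    rw [Finset.sum_mul]
    refine Finset.sum_congr rfl fun k _ => ?_
    ring
  unfold gd
  rw [h, Matrix.det_mul, Matrix.det_mul, Matrix.det_transpose, LinearMap.det_toMatrix]
  show _ = (LinearMap.det (A : E →ₗ[ℝ] E)) ^ 2 * _
  ring

theorem gd_pos (b : Basis ι ℝ E) (L : E →L[ℝ] F) (hL : Function.Injective L) : 0 < gd b L := by
  have h : LinearIndependent ℝ (fun i => L (b i)) := by
    have := b.linearIndependent.map' (L : E →ₗ[ℝ] F) (LinearMap.ker_eq_bot.mpr hL)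
    exact this
  exact (Matrix.posDef_gram_of_linearIndependent h).det_pos

theorem matrix_det_contDiffAt {n : WithTop ℕ∞} {x : G} (f : ι → ι → G → ℝ)
    (hf : ∀ i j, ContDiffAt ℝ n (f i j) x) :
    ContDiffAt ℝ n (fun u => (Matrix.of fun i j => f i j u).det) x := by
  simp only [Matrix.det_apply, Matrix.of_apply]
  refine ContDiffAt.sum fun σ _ => ?_
  refine ContDiffAt.const_smul _ ?_
  exact contDiffAt_prod fun i _ => hf _ _

theorem gd_contDiffAt {n : WithTop ℕ∞} {x : G} (b : Basis ι ℝ E) {L : G → E →L[ℝ] F}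
    (hL : ContDiffAt ℝ n L x) : ContDiffAt ℝ n (fun u => gd b (L u)) x :=
  matrix_det_contDiffAt (n := n) (x := x) (fun (i j : ι) u => ⟪L u (b i), L u (b j)⟫)
    (fun _ _ => ContDiffAt.inner ℝ (hL.clm_apply contDiffAt_const) (hL.clm_apply contDiffAt_const))

theorem det_eq_matrix (b : Basis ι ℝ E) (A : E →L[ℝ] E) :
    A.det = (Matrix.of fun i j => b.repr (A (b j)) i).det := by
  rw [ContinuousLinearMap.det, ← LinearMap.det_toMatrix b]
  congr 1
  ext i j
  rw [LinearMap.toMatrix_apply]
  rfl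

theorem det_contDiffAt [FiniteDimensional ℝ E] {n : WithTop ℕ∞} {x : G} (b : Basis ι ℝ E)
    {L : G → E →L[ℝ] E}
    (hL : ContDiffAt ℝ n L x) : ContDiffAt ℝ n (fun u => (L u).det) x := by
  simp only [det_eq_matrix b]
  refine matrix_det_contDiffAt (n := n) (x := x) (fun (i j : ι) u => b.repr (L u (b j)) i)
    (fun i j => ?_)
  have h1 : ContDiffAt ℝ n (fun u => L u (b j)) x := hL.clm_apply contDiffAt_const
  have h2 : ContDiff ℝ n (fun v : E => b.repr v i) :=
    (LinearMap.toContinuousLinearMap (b.coord i)).contDiff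
  exact h2.contDiffAt.comp x h1

end Pool.Agent.W5h70.AJ
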