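import Pool.Agent.W5h70.AJ.Low

set_option autoImplicit false

open Filter Topology Set Metric MeasureTheory
open scoped ENNReal

namespace Pool.Agent.W5h70.AJ

open Pool.Agent.H721R2 Pool.Agent.H789R2.AN

variable {X : Type*} [MetricSpace X] {E : Type*} [NormedAddCommGroup E] [NormedSpace ℝ E]

theorem holder_continuous (φ : X → ℝ) (C α r : ℝ) (hα : 0 < α)
    (hr : 0 < r) (hφ : ∀ x y, dist x y < r → |φ x - φ y| ≤ C * dist x y ^ α) :
    Continuous φ := by
  rw [continuous_iff_continuousAt]
  intro x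
  rw [ContinuousAt, tendsto_iff_dist_tendsto_zero]
  have h1 : Tendsto (fun y => dist y x) (𝓝 x) (𝓝 0) :=
    tendsto_iff_dist_tendsto_zero.mp (tendsto_id (α := X))
  have h2 : Tendsto (fun y => C * dist y x ^ α) (𝓝 x) (𝓝 (C * 0 ^ α)) := by
    have h3 : Tendsto (fun s : ℝ => C * s ^ α) (𝓝 0) (𝓝 (C * 0 ^ α)) := by
      apply Continuous.tendsto
      exact continuous_const.mul (Real.continuous_rpow_const hα.le)
    exact h3.comp h1
  rw [Real.zero_rpow hα.ne', mul_zero] at h2
  refine squeeze_zero' (Eventually.of_forall fun _ => dist_nonneg) ?_ h2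
  filter_upwards [(tendsto_order.mp h1).2 r hr] with y hy
  rw [Real.dist_eq]
  exact hφ y x hy

theorem bs_continuous {g : X → X} {φ : X → ℝ} (hg : Continuous g) (hφ : Continuous φ) (n : ℕ) :
    Continuous (bs g φ n) := by
  unfold bs
  exact continuous_finset_sum _ fun k _ => hφ.comp (hg.iterate k)

/-- Trapping regions are trivial. -/
theorem trap_univ [CompactSpace X] [ConnectedSpace X] [MeasurableSpace X] [BorelSpace X]
    (S : HypSys X E) (φ : X → ℝ) (C α r : ℝ) (hα : 0 < α)
    (hC : 0 ≤ C) (hr : 0 < r) (hφ : ∀ x y, dist x y < r → |φ x - φ y| ≤ C * dist x y ^ α)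
    (ν : Measure X) [IsFiniteMeasure ν] (hpos : ∀ U : Set X, IsOpen U → U.Nonempty → ν U ≠ 0)
    (κ : ℝ≥0∞) (hκ : κ ≠ 0) (hQ : ∀ (n : ℕ) (B : Set X), MeasurableSet B →
      κ * ∫⁻ x in B, ENNReal.ofReal (Real.exp (bs S.g φ n x)) ∂ν ≤ ν (S.g^[n] '' B))
    (U : Set X) (hUo : IsOpen U) (hUn : U.Nonempty) (hU : closure (S.g '' U) ⊆ U)
    (hper : ∀ (P : ℕ), 0 < P → ∀ p ∈ U, S.g^[P] p = p → 0 ≤ bs S.g φ P p) : U = univ := by
  by_contra hne
  have hφc := holder_continuous φ C α r hα hr hφ
  set D := U \ closure (S.g '' U) with hD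
  have hDo : IsOpen D := hUo.sdiff isClosed_closure
  have hDn : D.Nonempty := by
    by_contra h
    rw [not_nonempty_iff_eq_empty, hD, sdiff_eq_empty] at h
    have h2 : U = closure (S.g '' U) := Subset.antisymm h hU
    exact hne (IsClopen.eq_univ ⟨by rw [h2]; exact isClosed_closure, hUo⟩ hUn)
  have hνD := hpos D hDo hDn
  have hiter : ∀ n, ∀ x ∈ U, S.g^[n] x ∈ U := by
    intro n x hx
    induction n with
    | zero => exact hx
    | succ n ih =>
      rw [Function.iterate_succ_apply']
      exact hU (subset_closure (mem_image_of_mem _ ih))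
  have hinj : ∀ n : ℕ, Function.Injective (S.g^[n]) := fun n => S.g.injective.iterate n
  have hdis : Pairwise (Function.onFun Disjoint fun n : ℕ => S.g^[n] '' D) := by
    have h1 : ∀ i j : ℕ, i < j → Disjoint (S.g^[i] '' D) (S.g^[j] '' D) := by
      intro i j hij
      rw [Set.disjoint_left]
      rintro _ ⟨a, ha, rfl⟩ ⟨b, hb, hab⟩
      obtain ⟨k, rfl⟩ := Nat.exists_eq_add_of_lt hij
      rw [Nat.add_assoc, Function.iterate_add_apply] at hab
      have h2 := hinj i hab
      rw [Function.iterate_succ_apply'] at h2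
      apply ha.2
      rw [← h2]
      exact subset_closure (mem_image_of_mem _ (hiter k b hb.1))
    intro i j hij
    rcases lt_or_gt_of_ne hij with h | h
    · exact h1 i j h
    · exact (h1 j i h).symm
  have hopen : ∀ n : ℕ, IsOpen (S.g^[n] '' D) := by
    intro n
    induction n with
    | zero => simpa using hDo
    | succ n ih =>
      rw [Function.iterate_succ', Set.image_comp]
      exact S.g.isOpenMap _ ih
  have hsum : ∑' n : ℕ, ν (S.g^[n] '' D) ≠ ⊤ := by
    rw [← measure_iUnion hdis (fun n => (hopen n).measurableSet)]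
    exact measure_ne_top _ _
  apply hsum
  rw [eq_top_iff]
  have hmeas : ∀ n : ℕ, Measurable fun x => ENNReal.ofReal (Real.exp (bs S.g φ n x)) := by
    intro n
    exact ENNReal.measurable_ofReal.comp
      (Real.continuous_exp.comp (bs_continuous S.g.continuous hφc n)).measurable
  calc (⊤ : ℝ≥0∞) = κ * ∫⁻ x in D, ⊤ ∂ν := by
        rw [setLIntegral_const, ENNReal.top_mul hνD, ENNReal.mul_top hκ]
    _ = κ * ∫⁻ x in D, ∑' n : ℕ, ENNReal.ofReal (Real.exp (bs S.g φ n x)) ∂ν := by
        congr 1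
        refine setLIntegral_congr_fun hDo.measurableSet fun x hx => ?_
        obtain ⟨B, hB⟩ := lower S φ C α r hα hC hr hφ U hUo hU hper x hx.1
        symm
        rw [eq_top_iff]
        have h1 : ENNReal.ofReal (Real.exp (-B)) ≠ 0 := by
          rw [ENNReal.ofReal_ne_zero_iff]
          exact Real.exp_pos _
        rw [← ENNReal.tsum_const_eq_top_of_ne_zero (α := ℕ) h1]
        exact ENNReal.tsum_le_tsum fun n => ENNReal.ofReal_le_ofReal (Real.exp_le_exp.mpr (hB n))
    _ = κ * ∑' n : ℕ, ∫⁻ x in D, ENNReal.ofReal (Real.exp (bs S.g φ n x)) ∂ν := by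
        rw [lintegral_tsum fun n => (hmeas n).aemeasurable]
    _ = ∑' n : ℕ, κ * ∫⁻ x in D, ENNReal.ofReal (Real.exp (bs S.g φ n x)) ∂ν := by
        rw [ENNReal.tsum_mul_left]
    _ ≤ ∑' n : ℕ, ν (S.g^[n] '' D) :=
        ENNReal.tsum_le_tsum fun n => hQ n D hDo.measurableSet

/-- finite chains from `TransGen` -/
theorem exists_chain {R : X → X → Prop} {x y : X} (h : Relation.TransGen R x y) :
    ∃ (z : ℕ → X) (n : ℕ), z 0 = x ∧ z n = y ∧ ∀ k < n, R (z k) (z (k + 1)) := by
  induction h with
  | @single b hb =>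
    refine ⟨fun k => if k = 0 then x else b, 1, by simp, by simp, fun k hk => ?_⟩
    have : k = 0 := by omega
    subst this
    simpa using hb
  | @tail b c _ hbc ih =>
    obtain ⟨z, n, h1, h2, h3⟩ := ih
    refine ⟨fun k => if k ≤ n then z k else c, n + 1, by simp [h1], by simp, fun k hk => ?_⟩
    rcases Nat.lt_or_ge k n with h4 | h4
    · have h5 : k ≤ n := h4.le
      have h6 : k + 1 ≤ n := h4
      simp only [h5, h6, if_true]
      exact h3 k h4
    · have h5 : k = n := by omega
      subst h5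
      simp only [le_refl, if_true]
      rw [if_neg (by omega), h2]
      exact hbc

/-- If all trapping regions are trivial, the system is transitive. -/
theorem transitive_of_trap [CompactSpace X] (S : HypSys X E)
    (h : ∀ U : Set X, IsOpen U → U.Nonempty → closure (S.g '' U) ⊆ U → U = univ)
    (U V : Set X) (hU : IsOpen U) (hUn : U.Nonempty) (hV : IsOpen V) (hVn : V.Nonempty) :
    ∃ n : ℕ, (S.g^[n] '' U ∩ V).Nonempty := by
  obtain ⟨x, hx⟩ := hUn
  obtain ⟨y, hy⟩ := hVn
  obtain ⟨ρ₁, hρ₁, h1⟩ := Metric.isOpen_iff.mp hU x hx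
  obtain ⟨ρ₂, hρ₂, h2⟩ := Metric.isOpen_iff.mp hV y hy
  obtain ⟨ε₀, hε₀, hsh⟩ := S.shadowing
  have hK := S.one_le_K
  have hK0 : 0 < S.K := by linarith
  set ε := min ε₀ (min (ρ₁ / (16 * S.K)) (ρ₂ / (16 * S.K))) with hε
  have hε0 : 0 < ε := by positivity
  have hε2 : 16 * S.K * ε ≤ ρ₁ := by
    have : ε ≤ ρ₁ / (16 * S.K) := (min_le_right _ _).trans (min_le_left _ _)
    rw [le_div_iff₀ (by positivity)] at this
    linarith
  have hε3 : 16 * S.K * ε ≤ ρ₂ := by
    have : ε ≤ ρ₂ / (16 * S.K) := (min_le_right _ _).trans (min_le_right _ _)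
    rw [le_div_iff₀ (by positivity)] at this
    linarith
  have hKε : 0 < S.K * ε := by positivity
  have hW := h {b | Relation.TransGen (fun a b => dist (S.g a) b < ε) x b} (by
    rw [Metric.isOpen_iff]
    intro b hb
    have hb' : Relation.TransGen (fun a b => dist (S.g a) b < ε) x b := hb
    rcases Relation.TransGen.tail'_iff.mp hb' with ⟨a, ha, hab⟩
    refine ⟨ε - dist (S.g a) b, by linarith, fun b' hb2 => ?_⟩
    refine Relation.TransGen.tail' ha ?_
    rw [mem_ball, dist_comm] at hb2
    have := dist_triangle (S.g a) b b'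
    show dist (S.g a) b' < ε
    linarith) ⟨S.g x, Relation.TransGen.single (by simpa using hε0)⟩ (by
    intro b hb
    rw [Metric.mem_closure_iff] at hb
    obtain ⟨_, ⟨a, ha, rfl⟩, hab⟩ := hb ε hε0
    refine Relation.TransGen.tail ha ?_
    show dist (S.g a) b < ε
    rwa [dist_comm])
  have hxy : Relation.TransGen (fun a b => dist (S.g a) b < ε) x y := by
    have : y ∈ {b | Relation.TransGen (fun a b => dist (S.g a) b < ε) x b} := by
      rw [hW]; trivial
    exact this
  obtain ⟨z, n, hz0, hzn, hz⟩ := exists_chain hxy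
  let q : ℤ → X := fun k => if k < 0 then S.g.symm^[(-k).toNat] x else
    if k ≤ n then z k.toNat else S.g^[(k - n).toNat] y
  have q1 : ∀ k : ℤ, k ≤ 0 → q k = S.g.symm^[(-k).toNat] x := by
    intro k hk
    show (if k < 0 then _ else _) = _
    rcases lt_or_eq_of_le hk with h3 | h3
    · rw [if_pos h3]
    · subst h3
      rw [if_neg (lt_irrefl _), if_pos (by positivity)]
      simpa using hz0
  have q2 : ∀ k : ℤ, 0 ≤ k → k ≤ n → q k = z k.toNat := by
    intro k hk hk2
    show (if k < 0 then _ else _) = _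
    rw [if_neg (by omega), if_pos hk2]
  have q3 : ∀ k : ℤ, (n : ℤ) ≤ k → q k = S.g^[(k - n).toNat] y := by
    intro k hk
    show (if k < 0 then _ else _) = _
    rw [if_neg (by omega)]
    rcases lt_or_eq_of_le hk with h3 | h3
    · rw [if_neg (by omega)]
    · subst h3
      rw [if_pos le_rfl]
      simpa using hzn
  obtain ⟨w, hw1, hw2⟩ := hsh ε (min_le_left _ _) q (by
    intro k
    rcases lt_or_ge k 0 with h3 | h3
    · rw [q1 k h3.le, q1 (k + 1) (by omega)]
      have h4 : (-k).toNat = (-(k + 1)).toNat + 1 := by omega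
      rw [h4, Function.iterate_succ_apply', Homeomorph.apply_symm_apply, dist_self]
      exact hε0.le
    · rcases lt_or_ge k n with h4 | h4
      · rw [q2 k h3 h4.le, q2 (k + 1) (by omega) (by omega)]
        have h5 : (k + 1).toNat = k.toNat + 1 := by omega
        rw [h5]
        exact (hz _ (by omega)).le
      · rw [q3 k h4, q3 (k + 1) (by omega)]
        have h5 : (k + 1 - n).toNat = (k - n).toNat + 1 := by omega
        rw [h5, Function.iterate_succ_apply', dist_self]
        exact hε0.le)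
  refine ⟨n, w n, ⟨w 0, h1 ?_, (S.orbit_nat w hw1 n).symm⟩, h2 ?_⟩
  · rw [mem_ball]
    have h3 := hw2 0
    rw [q2 0 le_rfl (by positivity)] at h3
    have h4 : z (0 : ℤ).toNat = x := hz0
    rw [h4] at h3
    linarith
  · rw [mem_ball]
    have h3 := hw2 n
    rw [q3 n le_rfl] at h3
    simp only [sub_self, Int.toNat_zero, Function.iterate_zero, id_eq] at h3
    linarith

end Pool.Agent.W5h70.AJ
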